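import Pool.Agent.MP_bd285a_nt.Pic

/-!
A derivation argument: a divisor that moves on an isotrivial curve `y^2 = g(x)` has infinite order.
-/

namespace Pool.Agent.MP_bd285a_nt

open Polynomial Differential

lemma norm_ne {K : Type} [Field K] [CharZero K] (d : Derivation ℤ K[X] K[X])
    (hd : ∀ P : K[X], (d P).natDegree ≤ P.natDegree) (g p : K[X]) (v : K) (hg : d g = C v * g)
    (hp : ¬ p ∣ d p) (hdeg : 2 * p.natDegree < g.natDegree) (n : ℕ) (hn : 0 < n) (A B : K[X])
    (k : K) (hk : k ≠ 0) (hA : IsCoprime A p) : A ^ 2 - g * B ^ 2 ≠ C k * p ^ n := by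
  intro h
  obtain ⟨j, rfl⟩ : ∃ j, n = j + 1 := ⟨n - 1, by omega⟩
  have hp0 : p ≠ 0 := by
    rintro rfl
    simp at hp
  have hdh := congrArg d h
  simp only [Derivation.map_sub, Derivation.leibniz, Derivation.leibniz_pow, hg, smul_eq_mul,
    nsmul_eq_mul, Nat.add_sub_cancel] at hdh
  obtain ⟨l, hl⟩ : ∃ l, l = d (C k) * p + C (((j + 1 : ℕ) : K) * k) * d p := ⟨_, rfl⟩
  obtain ⟨B', hB'⟩ : ∃ B', B' = C 2 * d B + C v * B := ⟨_, rfl⟩
  have hC2 : (C (2 : K) : K[X]) = 2 := map_ofNat C 2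
  have e1 : 2 * A * d A - g * B * B' = p ^ j * l := by
    rw [hl, hB', C_mul, hC2, map_natCast]
    push_cast at hdh ⊢
    linear_combination hdh
  have eA : A * (A * B' - 2 * B * d A) = p ^ j * (C k * p * B' - B * l) := by
    linear_combination B' * h - B * e1
  have eB : g * B * (A * B' - 2 * B * d A) = p ^ j * (C (2 * k) * p * d A - A * l) := by
    rw [C_mul, hC2]
    linear_combination 2 * d A * h - A * e1
  obtain ⟨W, hW⟩ : p ^ j ∣ A * B' - 2 * B * d A :=
    (hA.symm.pow_left (m := j)).dvd_of_dvd_mul_left ⟨_, eA⟩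
  have hpj : p ^ j ≠ 0 := pow_ne_zero _ hp0
  have fA : A * W = C k * p * B' - B * l :=
    mul_left_cancel₀ hpj (by rw [← eA, hW]; ring)
  have fB : g * B * W = C (2 * k) * p * d A - A * l :=
    mul_left_cancel₀ hpj (by rw [← eB, hW]; ring)
  have hU : g * B * W ≠ 0 := by
    intro h0
    apply hp
    have h1 : p ∣ A * l := ⟨C (2 * k) * d A, by linear_combination fB - h0⟩
    have h2 : p ∣ l := hA.symm.dvd_of_dvd_mul_left h1
    rw [hl] at h2
    have h3 := (dvd_add_right (Dvd.intro_left _ rfl)).mp h2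
    have h4 : ((j + 1 : ℕ) : K) * k ≠ 0 := mul_ne_zero (Nat.cast_ne_zero.mpr hn.ne') hk
    exact (IsUnit.dvd_mul_left (isUnit_C.mpr h4.isUnit)).mp h3
  have hA0 : A ≠ 0 := by
    rintro rfl
    apply hU
    simp [fB]
  have hg0 : g ≠ 0 := left_ne_zero_of_mul (left_ne_zero_of_mul hU)
  have hB0 : B ≠ 0 := right_ne_zero_of_mul (left_ne_zero_of_mul hU)
  have hW0 : W ≠ 0 := right_ne_zero_of_mul hU
  have dl : l.natDegree ≤ p.natDegree := by
    rw [hl]
    refine natDegree_add_le_of_degree_le (natDegree_mul_le.trans ?_)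
      ((natDegree_C_mul_le _ _).trans (hd p))
    have := hd (C k)
    rw [natDegree_C] at this
    omega
  have dB : B'.natDegree ≤ B.natDegree := by
    rw [hB']
    exact natDegree_add_le_of_degree_le ((natDegree_C_mul_le _ _).trans (hd B))
      (natDegree_C_mul_le _ _)
  have key : ∀ (c : K) (S T : K[X]), S.natDegree ≤ T.natDegree →
      (C c * p * S - T * l).natDegree ≤ p.natDegree + T.natDegree := by
    intro c S T hST
    refine (natDegree_sub_le _ _).trans (max_le (natDegree_mul_le.trans ?_)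
      (natDegree_mul_le.trans ?_))
    · have := natDegree_C_mul_le c p
      omega
    · omega
  have d1 := key k B' B dB
  have d2 := key (2 * k) (d A) A (hd A)
  rw [← fA, natDegree_mul hA0 hW0] at d1
  rw [← fB, natDegree_mul (mul_ne_zero hg0 hB0) hW0, natDegree_mul hg0 hB0] at d2
  omega

variable {K : Type} [Field K] [CharZero K] [Differential K]

omit [CharZero K] in
lemma natDegree_impl_le (lam : K) (P : K[X]) :
    (implicitDeriv (C lam * X) P).natDegree ≤ P.natDegree := by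
  rw [natDegree_le_iff_coeff_eq_zero]
  intro N hN
  obtain ⟨M, rfl⟩ : ∃ M, N = M + 1 := ⟨N - 1, by omega⟩
  simp [implicitDeriv, mul_assoc, coeff_X_mul, coeff_derivative,
    coeff_eq_zero_of_natDegree_lt hN]

lemma posRank_of_impl (lam v y : K) (g p : K[X])
    (hg : implicitDeriv (C lam * X) g = C v * g) (hp : ¬ p ∣ implicitDeriv (C lam * X) p)
    (hdeg : 2 * p.natDegree < g.natDegree) (hy : y ≠ 0) (hgy : p ∣ g - C (y ^ 2)) :
    PosRank g := by
  have hp0 : p ≠ 0 := by
    rintro rfl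
    simp at hp
  exact posRank_of_norm g p y hp0 hy hgy
    (norm_ne _ (natDegree_impl_le lam) g p v hg hp hdeg)

omit [CharZero K] in
lemma not_dvd_impl (lam x : K) (n : ℕ) (hn : 0 < n) (h : x′ ≠ n * lam * x) :
    ¬ (X ^ n - C x : K[X]) ∣ implicitDeriv (C lam * X) (X ^ n - C x) := by
  obtain ⟨j, rfl⟩ : ∃ j, n = j + 1 := ⟨n - 1, by omega⟩
  have e : implicitDeriv (C lam * X) (X ^ (j + 1) - C x : K[X]) =
      (X ^ (j + 1) - C x) * C (((j + 1 : ℕ) : K) * lam) + C (((j + 1 : ℕ) : K) * lam * x - x′) := by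
    simp only [Derivation.map_sub, Derivation.leibniz_pow, implicitDeriv_X, implicitDeriv_C,
      smul_eq_mul, nsmul_eq_mul, Nat.add_sub_cancel, C_mul, C_sub, map_natCast]
    ring
  rw [e]
  intro hdvd
  have h1 := (dvd_add_right (Dvd.intro _ rfl)).mp hdvd
  have h2 := natDegree_le_of_dvd h1 (C_ne_zero.mpr (sub_ne_zero.mpr h.symm))
  rw [natDegree_C, natDegree_X_pow_sub_C] at h2
  omega

omit [CharZero K] in
lemma deriv_ratCast (q : ℚ) : ((q : K))′ = 0 := by
  rw [Rat.cast_def, Derivation.leibniz_div]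
  simp

/-- The quadratic twist. -/
lemma posRank_one (f : K[X]) (hf : mapCoeffs f = 0) (hdeg : 3 ≤ f.natDegree) (D u y : K)
    (hD : D ≠ 0) (hu : u′ ≠ 0) (hy : y ≠ 0) (h : D * y ^ 2 = f.eval u) :
    PosRank (C D⁻¹ * f) := by
  refine posRank_of_impl 0 ((D⁻¹)′ * D) y _ (X ^ 1 - C u) ?_
    (not_dvd_impl 0 u 1 one_pos (by simpa using hu)) ?_ hy ?_
  · have : implicitDeriv (C (0 : K) * X) f = 0 := by simp [implicitDeriv, hf]
    rw [Derivation.leibniz, this, implicitDeriv_C, ← mul_assoc, ← C_mul, mul_assoc,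
      mul_inv_cancel₀ hD]
    simp [mul_comm]
  · rw [natDegree_C_mul (inv_ne_zero hD), natDegree_X_pow_sub_C]
    omega
  · rw [pow_one, dvd_iff_isRoot]
    simp only [IsRoot.def, eval_sub, eval_mul, eval_C, ← h]
    field_simp
    ring

/-- The `m`-twist. -/
lemma posRank_two (n : ℕ) (hn : 0 < n) (D b x y : K) (hD : D ≠ 0) (hb : b′ = 0) (hy : y′ ≠ 0)
    (h : y ^ 2 = D * x ^ 3 + b) : PosRank (C D * X ^ (3 * n) + C b) := by
  have hn' : (n : K) ≠ 0 := Nat.cast_ne_zero.mpr hn.ne'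
  have hy0 : y ≠ 0 := by
    rintro rfl
    simp at hy
  refine posRank_of_impl (-D′ / (3 * n * D)) 0 y _ (X ^ n - C x) ?_
    (not_dvd_impl _ x n hn ?_) ?_ hy0 ?_
  · have e : (C D′ : K[X]) = -(C D * (((3 * n : ℕ) : K[X]) * C (-D′ / (3 * n * D)))) := by
      rw [← map_natCast C, ← C_mul, ← C_mul, ← C_neg]
      congr 1
      push_cast
      field_simp
    have e2 : (X : K[X]) ^ (3 * n) = X ^ (3 * n - 1) * X := by
      rw [← pow_succ]; congr 1; omega
    simp only [Derivation.map_add, Derivation.leibniz, Derivation.leibniz_pow, implicitDeriv_X,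
      implicitDeriv_C, hb, smul_eq_mul, nsmul_eq_mul, C_0]
    linear_combination (X ^ (3 * n)) * e -
      (C D * (((3 * n : ℕ) : K[X]) * C (-D′ / (3 * n * D)))) * e2
  · intro hx
    have hdh := congrArg Differential.deriv h
    simp only [Derivation.map_add, Derivation.leibniz, Derivation.leibniz_pow, hb, smul_eq_mul,
      nsmul_eq_mul, hx] at hdh
    apply mul_ne_zero hy0 hy
    field_simp at hdh
    push_cast at hdh
    linear_combination hdh / 6
  · rw [natDegree_X_pow_sub_C, natDegree_add_C, natDegree_C_mul_X_pow _ _ hD]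
    omega
  · refine ⟨C D * ((X ^ n) ^ 2 + X ^ n * C x + C x ^ 2), ?_⟩
    rw [h, mul_comm 3 n, pow_mul, C_add, C_mul, C_pow]
    ring

/-- The `2m`-twist. -/
lemma posRank_three (n : ℕ) (hn : 0 < n) (E x y : K) (hE : E ≠ 0) (hy : (y ^ 2 / E)′ ≠ 0)
    (h : y ^ 2 = x ^ 3 + E) : PosRank (X ^ (3 * n) + C E) := by
  have hn' : (n : K) ≠ 0 := Nat.cast_ne_zero.mpr hn.ne'
  have hy0 : y ≠ 0 := by
    rintro rfl
    simp at hy
  refine posRank_of_impl (E′ / (3 * n * E)) (E′ / E) y _ (X ^ n - C x) ?_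
    (not_dvd_impl _ x n hn ?_) ?_ hy0 ?_
  · have e : (C (E′ / E) : K[X]) = ((3 * n : ℕ) : K[X]) * C (E′ / (3 * n * E)) := by
      rw [← map_natCast C, ← C_mul]
      congr 1
      push_cast
      field_simp
    have e3 : (C E′ : K[X]) = C (E′ / E) * C E := by
      rw [← C_mul, div_mul_cancel₀ _ hE]
    have e2 : (X : K[X]) ^ (3 * n) = X ^ (3 * n - 1) * X := by
      rw [← pow_succ]; congr 1; omega
    simp only [Derivation.map_add, Derivation.leibniz_pow, implicitDeriv_X,
      implicitDeriv_C, smul_eq_mul, nsmul_eq_mul]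
    linear_combination e3 - (X ^ (3 * n)) * e -
      (((3 * n : ℕ) : K[X]) * C (E′ / (3 * n * E))) * e2
  · intro hx
    apply hy
    rw [h]
    simp only [Derivation.map_add, Derivation.leibniz_div, Derivation.leibniz_pow, smul_eq_mul,
      nsmul_eq_mul, hx]
    field_simp
    push_cast
    ring
  · rw [natDegree_X_pow_sub_C, natDegree_X_pow_add_C]
    omega
  · refine ⟨(X ^ n) ^ 2 + X ^ n * C x + C x ^ 2, ?_⟩
    rw [h, mul_comm 3 n, pow_mul, C_add, C_pow]
    ring

end Pool.Agent.MP_bd285a_nt
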