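import Pool.Agent.MP_bd285a_nt.Sec

/-!
Moving divisors of higher degree on `y^2 = g(x)`, and a divisor of degree four on `y^2 = x^9 + s`
that comes from an isogeny between two factors of the Jacobian of the Fermat curve of degree 18.
-/

namespace Pool.Agent.MP_bd285a_nt

open Polynomial Differential

lemma posRank_of_norm' {K : Type} [Field K] [CharZero K] (g p r : K[X]) (hp : p ≠ 0)
    (hpr : IsCoprime p r) (hg : p ∣ g - r ^ 2)
    (H : ∀ n : ℕ, 0 < n → ∀ A B : K[X], ∀ k : K, k ≠ 0 → IsCoprime A p →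
      A ^ 2 - g * B ^ 2 ≠ C k * p ^ n) : PosRank g := by
  obtain ⟨e, he⟩ := hg
  obtain ⟨α, β, hαβ⟩ := hpr
  have hgy : g = r ^ 2 + p * e := by rw [← he]; ring
  let P : QuadraticAlgebra K[X] g 0 := algebraMap K[X] _ p
  let a : QuadraticAlgebra K[X] g 0 := ⟨-r, 1⟩
  let b : QuadraticAlgebra K[X] g 0 := ⟨-r, -1⟩
  let t : QuadraticAlgebra K[X] g 0 := algebraMap K[X] _ (C (-2⁻¹) * β)
  let q : QuadraticAlgebra K[X] g 0 := algebraMap K[X] _ α
  have hy2 : (C (-2⁻¹) : K[X]) * (-1 + -1) = 1 := by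
    rw [← C_1, ← C_neg, ← C_add, ← C_mul]
    congr 1
    norm_num
  have hab : q * P + t * (a + b) = 1 := by
    ext : 1
    · simp only [q, P, t, a, b, QuadraticAlgebra.re_mul, QuadraticAlgebra.algebraMap_re,
        QuadraticAlgebra.algebraMap_im, QuadraticAlgebra.re_add, QuadraticAlgebra.im_add,
        QuadraticAlgebra.re_one]
      linear_combination hαβ + β * r * hy2
    · simp [q, P, t, a, b, QuadraticAlgebra.im_one]
  have hmul : a * b = P * algebraMap K[X] _ (-e) := by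
    ext : 1
    · simp only [a, b, P, QuadraticAlgebra.re_mul, QuadraticAlgebra.algebraMap_re,
        QuadraticAlgebra.algebraMap_im]
      linear_combination -hgy
    · simp [a, b, P]
  have hIJ : Ideal.span {P, a} * Ideal.span {P, b} = Ideal.span {P} := by
    rw [Ideal.span_pair_mul_span_pair]
    apply le_antisymm
    · rw [Ideal.span_le]
      intro z hz
      simp only [Set.mem_insert_iff, Set.mem_singleton_iff] at hz
      rw [SetLike.mem_coe, Ideal.mem_span_singleton]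
      rcases hz with rfl | rfl | rfl | rfl
      · exact Dvd.intro _ rfl
      · exact Dvd.intro _ rfl
      · exact Dvd.intro_left _ rfl
      · rw [hmul]; exact Dvd.intro _ rfl
    · rw [Ideal.span_singleton_le_iff_mem]
      have h0 : q * (P * P) + (t * (P * b) + t * (a * P)) ∈
          Ideal.span {P * P, P * b, a * P, a * b} := by
        refine Ideal.add_mem _ (Ideal.mul_mem_left _ _ (Ideal.subset_span ?_))
          (Ideal.add_mem _ (Ideal.mul_mem_left _ _ (Ideal.subset_span ?_))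
            (Ideal.mul_mem_left _ _ (Ideal.subset_span ?_))) <;> simp
      have : q * (P * P) + (t * (P * b) + t * (a * P)) = P := by linear_combination P * hab
      rwa [this] at h0
  have hP : P ∈ nonZeroDivisors (QuadraticAlgebra K[X] g 0) :=
    QuadraticAlgebra.algebraMap_mem_nonZeroDivisors_iff.mpr (mem_nonZeroDivisors_of_ne_zero hp)
  refine pic_of_ideal _ _ P hP hIJ ?_
  intro n hn z hz
  have hst : Ideal.map (starRingEnd (QuadraticAlgebra K[X] g 0)) (Ideal.span {P, a}) =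
      Ideal.span {P, b} := by
    rw [Ideal.map_span, Set.image_pair]
    congr 2
    · ext : 1 <;> simp [P, starRingEnd_apply]
    · congr 1
      ext : 1 <;> simp [a, b, starRingEnd_apply]
  have hz' : Ideal.span {P, b} ^ n = Ideal.span {star z} := by
    rw [← hst, ← Ideal.map_pow, hz, Ideal.map_span, Set.image_singleton]
    rfl
  have hN : Ideal.span {algebraMap K[X] (QuadraticAlgebra K[X] g 0) (QuadraticAlgebra.norm z)} =
      Ideal.span {algebraMap K[X] (QuadraticAlgebra K[X] g 0) (p ^ n)} := by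
    rw [QuadraticAlgebra.algebraMap_norm_eq_mul_star, ← Ideal.span_singleton_mul_span_singleton,
      ← hz, ← hz', ← mul_pow, hIJ, Ideal.span_singleton_pow, map_pow]
  have d1 := QuadraticAlgebra.algebraMap_dvd_iff_dvd.mp
    (Ideal.span_singleton_le_span_singleton.mp hN.le)
  have d2 := QuadraticAlgebra.algebraMap_dvd_iff_dvd.mp
    (Ideal.span_singleton_le_span_singleton.mp hN.ge)
  obtain ⟨u, hu⟩ := associated_of_dvd_dvd d1 d2
  obtain ⟨k, hk, hku⟩ := Polynomial.isUnit_iff.mp u.isUnit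
  have hzI : z ∈ Ideal.span {P, a} := by
    apply Ideal.pow_le_self hn.ne'
    rw [hz]
    exact Ideal.mem_span_singleton_self z
  have htop : Ideal.span {P, a} ⊔ Ideal.span {P, b} = ⊤ := by
    rw [Ideal.eq_top_iff_one, ← hab, mul_add, ← add_assoc]
    refine Submodule.add_mem_sup (Ideal.add_mem _ (Ideal.mul_mem_left _ _ (Ideal.subset_span ?_))
      (Ideal.mul_mem_left _ _ (Ideal.subset_span ?_)))
      (Ideal.mul_mem_left _ _ (Ideal.subset_span ?_)) <;> simp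
  have htop' : Ideal.span {z} ⊔ Ideal.span {P, b} = ⊤ := by
    rw [← hz]
    exact Ideal.pow_sup_eq_top htop
  have h1 : (1 : QuadraticAlgebra K[X] g 0) ∈ Ideal.span {z} ⊔ Ideal.span {P, b} := by
    rw [htop']; trivial
  obtain ⟨z1, hz1, z2, hz2, h12⟩ := Submodule.mem_sup.mp h1
  obtain ⟨s, rfl⟩ := Ideal.mem_span_singleton'.mp hz1
  obtain ⟨c1, c2, rfl⟩ := Ideal.mem_span_pair.mp hz2
  obtain ⟨c3, c4, hz3⟩ := Ideal.mem_span_pair.mp hzI
  have e1 := congrArg QuadraticAlgebra.re h12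
  have e2 := congrArg QuadraticAlgebra.im h12
  have e3 := congrArg QuadraticAlgebra.re hz3
  have e4 := congrArg QuadraticAlgebra.im hz3
  simp only [P, a, b, QuadraticAlgebra.re_mul, QuadraticAlgebra.im_mul,
    QuadraticAlgebra.algebraMap_re, QuadraticAlgebra.algebraMap_im, QuadraticAlgebra.re_add,
    QuadraticAlgebra.im_add, QuadraticAlgebra.re_one, QuadraticAlgebra.im_one] at e1 e2 e3 e4
  refine H n hn z.re z.im k hk.ne_zero ?_ ?_
  · refine ⟨2 * (s.re - r * s.im), (s.re - r * s.im) * (-(c3.re + r * c3.im + c4.im * e)) +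
      s.im * z.im * e + c1.re - r * c1.im - c2.im * e, ?_⟩
    linear_combination e1 - r * e2 - (s.re - r * s.im) * (e3 + r * e4) +
      (-(s.im * z.im) + c2.im + (s.re - r * s.im) * c4.im) * hgy
  · rw [hku, mul_comm _ (p ^ n), hu, QuadraticAlgebra.norm_def]
    ring

variable {K : Type} [Field K] [CharZero K] [Differential K]

omit [CharZero K] in
lemma impl_X_pow (lam : K) (j : ℕ) :
    implicitDeriv (C lam * X) (X ^ j : K[X]) = C (j * lam) * X ^ j := by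
  cases j with
  | zero => simp
  | succ j =>
    simp only [Derivation.leibniz_pow, implicitDeriv_X, smul_eq_mul, nsmul_eq_mul,
      Nat.add_sub_cancel, C_mul, map_natCast]
    ring

omit [CharZero K] in
lemma deriv_pow_of (x a : K) (h : x′ = a * x) (k : ℕ) : (x ^ k)′ = k * a * x ^ k := by
  cases k with
  | zero => simp
  | succ j =>
    simp only [Derivation.leibniz_pow, smul_eq_mul, nsmul_eq_mul, Nat.add_sub_cancel, h]
    ring

/-- The `m`-twist, through a quotient curve. -/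
lemma posRank_two' (k n : ℕ) (hk : 3 ≤ k) (hn : 0 < n) (D b x y : K) (hD : D ≠ 0) (hb : b′ = 0)
    (hy : y′ ≠ 0) (h : y ^ 2 = D * x ^ k + b) : PosRank (C D * X ^ (k * n) + C b) := by
  have hn' : (n : K) ≠ 0 := Nat.cast_ne_zero.mpr hn.ne'
  have hk' : (k : K) ≠ 0 := Nat.cast_ne_zero.mpr (by omega)
  have hy0 : y ≠ 0 := by
    rintro rfl
    simp at hy
  refine posRank_of_impl (-D′ / (k * n * D)) 0 y _ (X ^ n - C x) ?_
    (not_dvd_impl _ x n hn ?_) ?_ hy0 ?_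
  · have e : D * (((k * n : ℕ) : K) * (-D′ / (k * n * D))) + D′ = 0 := by
      push_cast
      field_simp
      ring
    have e' := congrArg (C : K → K[X]) e
    rw [Derivation.map_add, Derivation.leibniz, impl_X_pow, implicitDeriv_C, implicitDeriv_C, hb]
    rw [C_add, C_mul, C_0] at e'
    simp only [smul_eq_mul, C_0]
    linear_combination X ^ (k * n) * e'
  · intro hx
    have hdh := congrArg Differential.deriv h
    rw [Derivation.map_add, Derivation.leibniz, deriv_pow_of x _ hx, hb,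
      Derivation.leibniz_pow] at hdh
    simp only [smul_eq_mul, nsmul_eq_mul] at hdh
    apply mul_ne_zero hy0 hy
    field_simp at hdh
    push_cast at hdh
    linear_combination hdh / 2
  · rw [natDegree_X_pow_sub_C, natDegree_add_C, natDegree_C_mul_X_pow _ _ hD]
    nlinarith
  · have : (C D * X ^ (k * n) + C b - C (y ^ 2) : K[X]) = C D * ((X ^ n) ^ k - C x ^ k) := by
      rw [h, mul_comm k n, pow_mul, C_add, C_mul, C_pow]
      ring
    rw [this]
    exact (sub_dvd_pow_sub_pow _ _ k).mul_left _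

omit [CharZero K] in
lemma impl_three (m : ℕ) (E : K) (hm : (m : K) ≠ 0) (hE : E ≠ 0) :
    implicitDeriv (C (E′ / (m * E)) * X) (X ^ m + C E : K[X]) = C (E′ / E) * (X ^ m + C E) := by
  have e : (m : K) * (E′ / (m * E)) = E′ / E := by field_simp
  rw [Derivation.map_add, impl_X_pow, implicitDeriv_C, e, mul_add, ← C_mul,
    div_mul_cancel₀ _ hE]

/-- The `2m`-twist, through a quotient curve. -/
lemma posRank_three' (k n : ℕ) (hk : 3 ≤ k) (hn : 0 < n) (E x y : K) (hE : E ≠ 0)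
    (hy : (y ^ 2 / E)′ ≠ 0) (h : y ^ 2 = x ^ k + E) : PosRank (X ^ (k * n) + C E) := by
  have hn' : (n : K) ≠ 0 := Nat.cast_ne_zero.mpr hn.ne'
  have hk' : (k : K) ≠ 0 := Nat.cast_ne_zero.mpr (by omega)
  have hy0 : y ≠ 0 := by
    rintro rfl
    simp at hy
  refine posRank_of_impl _ (E′ / E) y _ (X ^ n - C x)
    (impl_three (k * n) E (by exact_mod_cast mul_ne_zero hk' hn') hE)
    (not_dvd_impl _ x n hn ?_) ?_ hy0 ?_
  · intro hx
    apply hy
    rw [h, Derivation.leibniz_div, Derivation.map_add, deriv_pow_of x _ hx]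
    simp only [smul_eq_mul]
    push_cast
    field_simp
    ring
  · rw [natDegree_X_pow_sub_C, natDegree_X_pow_add_C]
    nlinarith
  · have : (X ^ (k * n) + C E - C (y ^ 2) : K[X]) = (X ^ n) ^ k - C x ^ k := by
      rw [h, mul_comm k n, pow_mul, C_add, C_pow]
      ring
    rw [this]
    exact sub_dvd_pow_sub_pow _ _ k

omit [Differential K] in
lemma natDegree_four (b1 b2 b3 : K) (n : ℕ) :
    (expand K n (X ^ 4 - X ^ 3 - C b1 * X ^ 2 - C b2 * X - C b3)).natDegree = 4 * n := by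
  rw [natDegree_expand]
  congr 1
  compute_degree!

lemma not_dvd_four (lam b1 b2 b3 : K) (n : ℕ) (hn : 0 < n) (h : b3′ ≠ 0) :
    ¬ expand K n (X ^ 4 - X ^ 3 - C b1 * X ^ 2 - C b2 * X - C b3) ∣
      implicitDeriv (C lam * X) (expand K n (X ^ 4 - X ^ 3 - C b1 * X ^ 2 - C b2 * X - C b3)) := by
  intro hd
  obtain ⟨q, hq⟩ : ∃ q : K[X], q = C (n * lam) * X ^ 3 + C (2 * n * lam * b1 - b1′) * X ^ 2 +
    C (3 * n * lam * b2 - b2′) * X + C (4 * n * lam * b3 - b3′) := ⟨_, rfl⟩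
  have e : implicitDeriv (C lam * X)
      (expand K n (X ^ 4 - X ^ 3 - C b1 * X ^ 2 - C b2 * X - C b3)) =
      expand K n (X ^ 4 - X ^ 3 - C b1 * X ^ 2 - C b2 * X - C b3) * C (4 * n * lam) +
        expand K n q := by
    simp only [hq, map_sub (expand K n), map_add (expand K n), map_mul (expand K n),
      map_pow (expand K n), expand_X, expand_C, ← pow_mul]
    simp only [Derivation.map_sub, Derivation.leibniz, impl_X_pow, implicitDeriv_C, smul_eq_mul,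
      Nat.cast_mul, Nat.cast_ofNat, C_mul, C_sub, map_ofNat]
    ring
  rw [e] at hd
  have h1 := eq_zero_of_dvd_of_natDegree_lt ((dvd_add_right (Dvd.intro _ rfl)).mp hd) (by
    rw [natDegree_four, natDegree_expand]
    have : q.natDegree ≤ 3 := by
      rw [hq]
      compute_degree
    nlinarith)
  rw [expand_eq_zero hn, hq] at h1
  have c3 := congrArg (coeff · 3) h1
  have c0 := congrArg (coeff · 0) h1
  simp only [coeff_add, coeff_C_mul, coeff_X_pow, coeff_X, coeff_C, coeff_zero] at c3 c0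
  norm_num at c3 c0
  rw [c3.resolve_left hn.ne'] at c0
  simp [h] at c0

/-- A moving divisor of degree four on `y^2 = x^9 + 16 V^6 + 384 V^7`. -/
lemma posRank_nine (n : ℕ) (hn : 0 < n) (V : K) (hV : V′ ≠ 0) :
    PosRank (X ^ (9 * n) + C (16 * V ^ 6 + 384 * V ^ 7) : K[X]) := by
  have hn' : (n : K) ≠ 0 := Nat.cast_ne_zero.mpr hn.ne'
  have hV0 : V ≠ 0 := by
    rintro rfl
    simp at hV
  have hE : 16 * V ^ 6 + 384 * V ^ 7 ≠ 0 := by
    have := aeval_ne_zero_of V hV (16 * X ^ 6 + 384 * X ^ 7) (fun h => by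
      have := congrArg (eval 1) h
      norm_num at this)
    simpa [map_ofNat] using this
  have hR : 8 * V ^ 3 * (2 + 108 * V + 1944 * V ^ 2 + 11672 * V ^ 3 + 384 * V ^ 4 +
      4608 * V ^ 5) ≠ 0 := by
    have := aeval_ne_zero_of V hV (8 * X ^ 3 * (2 + 108 * X + 1944 * X ^ 2 + 11672 * X ^ 3 +
      384 * X ^ 4 + 4608 * X ^ 5)) (fun h => by
      have := congrArg (eval 1) h
      norm_num at this)
    simpa only [map_ofNat, map_add, map_mul, map_pow, aeval_X] using this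
  obtain ⟨lam, hlam⟩ : ∃ lam, lam = (16 * V ^ 6 + 384 * V ^ 7)′ /
    (((9 * n : ℕ) : K) * (16 * V ^ 6 + 384 * V ^ 7)) := ⟨_, rfl⟩
  have hg := impl_three (9 * n) _ (Nat.cast_ne_zero.mpr (by omega)) hE
  rw [← hlam] at hg
  obtain ⟨p, hp⟩ : ∃ p : K[X], p = X ^ 4 - X ^ 3 - C (4 * V) * X ^ 2 - C (12 * V ^ 2) * X -
    C (24 * V ^ 3) := ⟨_, rfl⟩
  have hpd : (expand K n p).natDegree = 4 * n := hp ▸ natDegree_four _ _ _ n
  have hp0 : expand K n p ≠ 0 := by
    intro h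
    rw [h, natDegree_zero] at hpd
    omega
  have hpe : expand K n p = (X ^ n) ^ 4 - (X ^ n) ^ 3 - C (4 * V) * (X ^ n) ^ 2 -
      C (12 * V ^ 2) * X ^ n - C (24 * V ^ 3) := by
    simp only [hp, map_sub, map_mul (expand K n), map_pow (expand K n), expand_X, expand_C]
  refine posRank_of_norm' _ (expand K n p) (-(X ^ n) ^ 5 + 2 * C V * (X ^ n) ^ 3 +
    8 * C V ^ 2 * (X ^ n) ^ 2 + 24 * C V ^ 3 * X ^ n - 4 * C V ^ 3) hp0 ?_ ?_
    (norm_ne _ (natDegree_impl_le lam) _ _ _ hg ?_ ?_)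
  · have hi := congrArg (C : K → K[X]) (inv_mul_cancel₀ hR)
    rw [C_mul, C_1] at hi
    obtain ⟨i, hi'⟩ : ∃ i : K[X], i = C (8 * V ^ 3 * (2 + 108 * V + 1944 * V ^ 2 +
      11672 * V ^ 3 + 384 * V ^ 4 + 4608 * V ^ 5))⁻¹ := ⟨_, rfl⟩
    rw [← hi'] at hi
    rw [hpe]
    simp only [map_ofNat, C_add, C_mul, C_pow] at hi ⊢
    generalize (X ^ n : K[X]) = Y
    generalize C V = w at hi ⊢
    obtain ⟨A, hA⟩ : ∃ A, A = (4 + 160 * w + 1872 * w ^ 2 + 5312 * w ^ 3 + 3008 * w ^ 4 -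
      1536 * w ^ 5) + (4 + 144 * w + 1456 * w ^ 2 + 3200 * w ^ 3 + 768 * w ^ 4) * Y +
      (4 + 96 * w + 560 * w ^ 2 + 768 * w ^ 3) * Y ^ 2 := ⟨_, rfl⟩
    obtain ⟨B, hB⟩ : ∃ B, B = (2 + 84 * w + 1080 * w ^ 2 + 3944 * w ^ 3 + 1344 * w ^ 4) +
      (72 * w ^ 2 + 1440 * w ^ 3) * Y + (-16 * w - 232 * w ^ 2 + 192 * w ^ 3) * Y ^ 2 +
      (-2 - 44 * w - 192 * w ^ 2) * Y ^ 3 := ⟨_, rfl⟩
    refine ⟨i * (A - 2 * (Y + 1) * B), i * (-2 * B), ?_⟩
    rw [hA, hB]
    linear_combination hi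
  · refine ⟨-((X ^ n) ^ 6 - 4 * C V ^ 2 * (X ^ n) ^ 3 - 24 * C V ^ 3 * (X ^ n) ^ 2 +
      16 * C V ^ 4), ?_⟩
    rw [hpe, mul_comm 9 n, pow_mul]
    simp only [map_ofNat, C_add, C_mul, C_pow]
    ring
  · rw [hp]
    exact not_dvd_four lam _ _ _ n hn (deriv_ne_zero_of V _ hV (24 * X ^ 3) 1
      (by simp [map_ofNat]) 0 1 (by norm_num))
  · rw [hpd, natDegree_X_pow_add_C]
    omega

lemma sq_sub_ne (u : K) (hu : u′ ≠ 0) (b : ℚ) : u ^ 2 - b ≠ 0 := by
  intro h0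
  refine deriv_ne_zero_of u (u ^ 2 - b) hu (X ^ 2 - C b) 1 (by simp) 0 1
    (by simp [eq_sub_iff_add_eq]) ?_
  rw [h0, Derivation.map_zero]

/-- Two coprime divisors of the exponent. -/
lemma good_two (F : K) (hF : F′ ≠ 0) (p q : ℕ) (hp : Odd p) (hq : Odd q) (h1p : 1 < p)
    (hpq : Nat.Coprime p q) (b c : ℚ) (hc : c ≠ 0) :
    ∃ D : K, D ≠ 0 ∧ (∃ y : K, y ≠ 0 ∧ D * y ^ 2 = F) ∧
      (∃ x y : K, y′ ≠ 0 ∧ y ^ 2 = D * x ^ p + b) ∧
      (∃ x y : K, (y ^ 2 / (c * D))′ ≠ 0 ∧ y ^ 2 = x ^ q + c * D) := by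
  have hF0 : F ≠ 0 := fun h => ne_ratCast F hF 0 (by push_cast; exact h)
  have hc' : (c : K) ≠ 0 := by exact_mod_cast hc
  obtain ⟨e, -, he⟩ := Nat.exists_mul_mod_eq_one_of_coprime (n := 2 * q) (k := p)
    (Nat.Coprime.mul_left (Nat.coprime_two_left.2 hp) hpq.symm) h1p
  obtain ⟨j, -, hj⟩ := Nat.exists_mul_mod_eq_one_of_coprime (n := q) (k := 2 * p)
    (Nat.Coprime.mul_right (Nat.coprime_two_right.2 hq) hpq.symm) (by omega)
  obtain ⟨i, hi⟩ : ∃ i, 2 * q * e = p * i + 1 :=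
    ⟨2 * q * e / p, by rw [← he, Nat.div_add_mod]⟩
  obtain ⟨h, hh⟩ : ∃ h, q * j = 2 * p * h + 1 :=
    ⟨q * j / (2 * p), by rw [← hj, Nat.div_add_mod]⟩
  obtain ⟨l, hl⟩ := hp.mul hq
  have hs : (c * F ^ (p * q))′ ≠ 0 := deriv_ne_zero_of F _ hF (C c * X ^ (p * q)) 1
    (by simp) 0 1 (by simpa [hl] using hc.symm)
  have hM : 1 - c * F ^ (p * q) ≠ 0 := fun h0 =>
    ne_ratCast _ hs 1 (by push_cast; linear_combination -h0)
  have hN := sq_sub_ne F hF b
  obtain ⟨N, hN1⟩ : ∃ N, N = F ^ 2 - b := ⟨_, rfl⟩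
  obtain ⟨M, hM1⟩ : ∃ M, M = 1 - c * F ^ (p * q) := ⟨_, rfl⟩
  rw [← hN1] at hN
  rw [← hM1] at hM
  refine ⟨F ^ (p * q) * N ^ (2 * q * e) * M ^ (2 * p * h), by positivity,
    ⟨1 / (F ^ l * N ^ (q * e) * M ^ (p * h)), one_div_ne_zero (by positivity), ?_⟩,
    ⟨1 / (F ^ q * N ^ i * M ^ (2 * h)), F, hF, ?_⟩,
    ⟨N ^ (2 * e) * M ^ j, N ^ (q * e) * M ^ (p * h), ?_, ?_⟩⟩
  · rw [hl]
    field_simp
    ring
  · have : F ^ (p * q) * N ^ (2 * q * e) * M ^ (2 * p * h) *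
        (1 / (F ^ q * N ^ i * M ^ (2 * h))) ^ p = N := by
      rw [hi, one_div, inv_pow, mul_inv_eq_iff_eq_mul₀ (by positivity)]
      ring
    rw [this, hN1]
    ring
  · have : (N ^ (q * e) * M ^ (p * h)) ^ 2 /
        (c * (F ^ (p * q) * N ^ (2 * q * e) * M ^ (2 * p * h))) = (c * F ^ (p * q))⁻¹ := by
      field_simp
      ring
    rw [this, Derivation.leibniz_inv]
    exact smul_ne_zero (neg_ne_zero.2 (by positivity)) hs
  · have e1 : (N ^ (2 * e) * M ^ j) ^ q = N ^ (2 * q * e) * M ^ (2 * p * h) * M := by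
      rw [mul_pow, ← pow_mul, ← pow_mul, mul_comm j q, hh]
      ring
    rw [e1]
    linear_combination (-(N ^ (2 * q * e) * M ^ (2 * p * h))) * hM1

/-- Exponents divisible by nine. -/
lemma good_nine (F : K) (hF : F′ ≠ 0) (b c : ℚ) (hc : c ≠ 0) :
    ∃ D : K, D ≠ 0 ∧ (∃ y : K, y ≠ 0 ∧ D * y ^ 2 = F) ∧
      (∃ x y : K, y′ ≠ 0 ∧ y ^ 2 = D * x ^ 3 + b) ∧
      ∃ V : K, V′ ≠ 0 ∧ c * D = 16 * V ^ 6 + 384 * V ^ 7 := by
  have hF0 : F ≠ 0 := fun h => ne_ratCast F hF 0 (by push_cast; exact h)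
  obtain ⟨t, ht0, ht⟩ : ∃ t : ℚ, t ≠ 0 ∧ t ^ 2 - b ≠ 0 := by
    by_cases h : b = 1
    · exact ⟨2, two_ne_zero, by rw [h]; norm_num⟩
    · exact ⟨1, one_ne_zero, fun h' => h (by linear_combination -h')⟩
  have hN := sq_sub_ne F hF b
  obtain ⟨N, hN1⟩ : ∃ N, N = F ^ 2 - b := ⟨_, rfl⟩
  obtain ⟨V, hV1⟩ : ∃ V, V = (c * F ^ 3 * N ^ 4 - 16) / 384 := ⟨_, rfl⟩
  have hV : V′ ≠ 0 := by
    refine deriv_ne_zero_of F V hF (C c * X ^ 3 * (X ^ 2 - C b) ^ 4 - 16) 384 ?_ 0 t ?_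
    · rw [hV1, hN1]
      simp [map_ofNat]
    · intro h
      simp only [eval_sub, eval_mul, eval_pow, eval_C, eval_X, eval_ofNat] at h
      exact mul_ne_zero (mul_ne_zero hc (pow_ne_zero 3 ht0)) (pow_ne_zero 4 ht)
        (by linear_combination -h / 384)
  have hV0 : V ≠ 0 := fun h => ne_ratCast V hV 0 (by push_cast; exact h)
  rw [← hN1] at hN
  refine ⟨F ^ 3 * N ^ 4 * V ^ 6, by positivity,
    ⟨1 / (F * N ^ 2 * V ^ 3), one_div_ne_zero (by positivity), by field_simp⟩,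
    ⟨1 / (F * N * V ^ 2), F, hF, ?_⟩, V, hV, ?_⟩
  · have : F ^ 3 * N ^ 4 * V ^ 6 * (1 / (F * N * V ^ 2)) ^ 3 = N := by field_simp
    rw [this, hN1]
    ring
  · linear_combination (-384 * V ^ 6) * hV1

lemma most_posRank (φ : ℚ →+* K) (u : K) (hu : u′ ≠ 0) (f : ℚ[X]) (hdeg : 3 ≤ f.natDegree)
    (m : ℕ) (hm : Odd m) (h3 : 3 < m) (hpp : ∀ p k : ℕ, p.Prime → 5 ≤ p → m ≠ p ^ k) (b c : ℚ)
    (hc : c ≠ 0) :
    ∃ D : K, D ≠ 0 ∧ PosRank (C D⁻¹ * f.map φ) ∧
      PosRank (C D * X ^ m + C (φ b)) ∧ PosRank (X ^ m + C (φ c * D)) := by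
  obtain ⟨g, hg⟩ : ∃ g, g = f.map φ := ⟨_, rfl⟩
  have hg1 : mapCoeffs g = 0 := by rw [hg]; exact mapCoeffs_map φ f
  have hg2 : 3 ≤ g.natDegree := by rw [hg, natDegree_map]; exact hdeg
  have hF : (g.eval u)′ ≠ 0 := by
    intro h0
    have := const_poly_eq_zero u hu (g - C (g.eval u)) (by simp [hg1, h0]) (by simp)
    rw [sub_eq_zero.mp this, natDegree_C] at hg2
    omega
  have hc' : (c : K) ≠ 0 := by exact_mod_cast hc
  have h2 : ∀ p : ℕ, p.Prime → p ∣ m → Odd p ∧ 3 ≤ p := fun p hp hd => by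
    have h1 := hm.of_dvd_nat hd
    have h4 := hp.two_le
    obtain ⟨k, hk⟩ := id h1
    exact ⟨h1, by omega⟩
  rw [← hg, eq_ratCast, eq_ratCast]
  by_cases h : IsPrimePow m
  · obtain ⟨p, k, hp, hk, rfl⟩ := (isPrimePow_nat_iff m).1 h
    obtain ⟨⟨a, ha⟩, h4⟩ := h2 p hp (dvd_pow_self p hk.ne')
    have h5 : ¬ 5 ≤ p := fun h5 => hpp p k hp h5 rfl
    obtain rfl : p = 3 := by omega
    have h6 : k ≠ 1 := by
      rintro rfl
      omega
    obtain ⟨j, rfl⟩ : ∃ j, k = j + 2 := ⟨k - 2, by omega⟩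
    obtain ⟨D, hD, ⟨y1, hy1, e1⟩, ⟨x2, y2, hy2, e2⟩, V, hV, e3⟩ := good_nine _ hF b c hc
    refine ⟨D, hD, posRank_one g hg1 hg2 D u y1 hD hu hy1 e1, ?_, ?_⟩
    · rw [show 3 ^ (j + 2) = 3 * 3 ^ (j + 1) by ring]
      exact posRank_two _ (by positivity) D _ x2 y2 hD (deriv_ratCast _) hy2 e2
    · rw [show 3 ^ (j + 2) = 9 * 3 ^ j by ring, e3]
      exact posRank_nine _ (by positivity) V hV
  · obtain ⟨p, hp, hpm⟩ := Nat.exists_prime_and_dvd (n := m) (by omega)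
    obtain ⟨q, hq, hqm, hne⟩ : ∃ q : ℕ, q.Prime ∧ q ∣ m ∧ q ≠ p := by
      by_contra hcon
      push Not at hcon
      exact h (isPrimePow_iff_unique_prime_dvd.2 ⟨p, ⟨hp, hpm⟩, fun q hq => hcon q hq.1 hq.2⟩)
    obtain ⟨p1, p3⟩ := h2 p hp hpm
    obtain ⟨q1, q3⟩ := h2 q hq hqm
    obtain ⟨D, hD, ⟨y1, hy1, e1⟩, ⟨x2, y2, hy2, e2⟩, ⟨x3, y3, hy3, e3⟩⟩ :=
      good_two _ hF p q p1 q1 hp.one_lt ((Nat.coprime_primes hp hq).2 hne.symm) b c hc
    refine ⟨D, hD, posRank_one g hg1 hg2 D u y1 hD hu hy1 e1, ?_, ?_⟩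
    · obtain ⟨n, rfl⟩ := hpm
      exact posRank_two' p n p3 (Nat.pos_of_ne_zero (by rintro rfl; omega)) D _ x2 y2 hD
        (deriv_ratCast _) hy2 e2
    · obtain ⟨n, rfl⟩ := hqm
      exact posRank_three' q n q3 (Nat.pos_of_ne_zero (by rintro rfl; omega)) _ x3 y3
        (mul_ne_zero hc' hD) hy3 e3

end Pool.Agent.MP_bd285a_nt
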