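import Mathlib

/-!
Positive rank of the Jacobian of `y^2 = g(x)` through the Picard group of the affine coordinate
ring, and a criterion for a divisor class to have infinite order.
-/

namespace Pool.Agent.MP_bd285a_nt

open Polynomial

/-- The Picard group of the affine coordinate ring `K[x][y]/(y^2 - g(x))` of the curve
`y^2 = g(x)` over the field `K` has an element of infinite order. -/
def PosRank {K : Type} [Field K] (g : K[X]) : Prop :=
  ∃ L : CommRing.Pic (QuadraticAlgebra K[X] g 0), ¬ IsOfFinOrder L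

lemma coeSub_pow {R A : Type} [CommRing R] [CommRing A] [Algebra R A] (I : Ideal R) (n : ℕ) :
    IsLocalization.coeSubmodule A (I ^ n) = IsLocalization.coeSubmodule A I ^ n := by
  induction n with
  | zero => simp [IsLocalization.coeSubmodule_top]
  | succ k ih => rw [pow_succ, pow_succ, IsLocalization.coeSubmodule_mul, ih]

lemma pic_of_ideal {R : Type} [CommRing R] (I J : Ideal R) (p : R) (hp : p ∈ nonZeroDivisors R)
    (hIJ : I * J = Ideal.span {p}) (h : ∀ n : ℕ, 0 < n → ∀ z : R, I ^ n ≠ Ideal.span {z}) :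
    ∃ L : CommRing.Pic R, ¬ IsOfFinOrder L := by
  obtain ⟨up, hup⟩ := IsLocalization.map_units (FractionRing R) (⟨p, hp⟩ : nonZeroDivisors R)
  have h1 : IsLocalization.coeSubmodule (FractionRing R) I *
      (IsLocalization.coeSubmodule (FractionRing R) J *
        Submodule.span R {((up⁻¹ : (FractionRing R)ˣ) : FractionRing R)}) = 1 := by
    rw [← mul_assoc, ← IsLocalization.coeSubmodule_mul, hIJ,
      IsLocalization.coeSubmodule_span_singleton, Submodule.span_mul_span,
      Set.singleton_mul_singleton]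
    have : algebraMap R (FractionRing R) p = up := hup.symm
    rw [this, Units.mul_inv, Submodule.one_eq_span]
  refine ⟨Submodule.unitsToPic R (FractionRing R) (Units.mkOfMulEqOne _ _ h1), ?_⟩
  intro hf
  obtain ⟨n, hn, hL⟩ := isOfFinOrder_iff_pow_eq_one.mp hf
  rw [← map_pow, ← MonoidHom.mem_ker, Submodule.ker_unitsToPic] at hL
  obtain ⟨x, hx⟩ := hL
  have hx' := congrArg Units.val hx
  simp only [Units.coe_map, Units.val_pow_eq_pow_val, Units.val_mkOfMulEqOne] at hx'
  have hpr : (IsLocalization.coeSubmodule (FractionRing R) (I ^ n)).IsPrincipal := by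
    rw [coeSub_pow, ← hx']
    exact ⟨⟨(x : FractionRing R), rfl⟩⟩
  rw [IsLocalization.coeSubmodule_isPrincipal (FractionRing R) (M := nonZeroDivisors R) le_rfl]
    at hpr
  obtain ⟨z, hz⟩ := hpr
  exact h n hn z hz

lemma posRank_of_norm {K : Type} [Field K] [CharZero K] (g p : K[X]) (y : K) (hp : p ≠ 0)
    (hy : y ≠ 0) (hg : p ∣ g - C (y ^ 2))
    (H : ∀ n : ℕ, 0 < n → ∀ A B : K[X], ∀ k : K, k ≠ 0 → IsCoprime A p →
      A ^ 2 - g * B ^ 2 ≠ C k * p ^ n) : PosRank g := by
  obtain ⟨e, he⟩ := hg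
  have hgy : g = C y ^ 2 + p * e := by rw [← C_pow, ← he]; ring
  let P : QuadraticAlgebra K[X] g 0 := algebraMap K[X] _ p
  let a : QuadraticAlgebra K[X] g 0 := ⟨-C y, 1⟩
  let b : QuadraticAlgebra K[X] g 0 := ⟨-C y, -1⟩
  let t : QuadraticAlgebra K[X] g 0 := algebraMap K[X] _ (C (-(2 * y)⁻¹))
  have hy2 : (C (-(2 * y)⁻¹) : K[X]) * (-C y + -C y) = 1 := by
    rw [← C_neg, ← C_add, ← C_mul, ← C_1]
    congr 1
    field_simp
    ring
  have hab : t * (a + b) = 1 := by
    ext : 1
    · simp only [t, a, b, QuadraticAlgebra.re_mul, QuadraticAlgebra.algebraMap_re,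
        QuadraticAlgebra.algebraMap_im, QuadraticAlgebra.re_add, QuadraticAlgebra.im_add,
        QuadraticAlgebra.re_one]
      rw [hy2]; ring
    · simp [t, a, b, QuadraticAlgebra.im_one]
  have hmul : a * b = P * algebraMap K[X] _ (-e) := by
    ext : 1
    · simp only [a, b, P, QuadraticAlgebra.re_mul, QuadraticAlgebra.algebraMap_re,
        QuadraticAlgebra.algebraMap_im]
      linear_combination -hgy
    · simp [a, b, P]
  have hIJ : Ideal.span {P, a} * Ideal.span {P, b} = Ideal.span {P} := by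
    rw [Ideal.span_pair_mul_span_pair]
    apply le_antisymm
    · rw [Ideal.span_le]
      intro z hz
      simp only [Set.mem_insert_iff, Set.mem_singleton_iff] at hz
      rw [SetLike.mem_coe, Ideal.mem_span_singleton]
      rcases hz with rfl | rfl | rfl | rfl
      · exact Dvd.intro _ rfl
      · exact Dvd.intro _ rfl
      · exact Dvd.intro_left _ rfl
      · rw [hmul]; exact Dvd.intro _ rfl
    · rw [Ideal.span_singleton_le_iff_mem]
      have : P = t * (P * b) + t * (a * P) := by linear_combination -P * hab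
      rw [this]
      refine Ideal.add_mem _ (Ideal.mul_mem_left _ _ (Ideal.subset_span ?_))
        (Ideal.mul_mem_left _ _ (Ideal.subset_span ?_)) <;> simp [← this]
  have hP : P ∈ nonZeroDivisors (QuadraticAlgebra K[X] g 0) :=
    QuadraticAlgebra.algebraMap_mem_nonZeroDivisors_iff.mpr (mem_nonZeroDivisors_of_ne_zero hp)
  refine pic_of_ideal _ _ P hP hIJ ?_
  intro n hn z hz
  have hst : Ideal.map (starRingEnd (QuadraticAlgebra K[X] g 0)) (Ideal.span {P, a}) =
      Ideal.span {P, b} := by
    rw [Ideal.map_span, Set.image_pair]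
    congr 2
    · ext : 1 <;> simp [P, starRingEnd_apply]
    · congr 1
      ext : 1 <;> simp [a, b, starRingEnd_apply]
  have hz' : Ideal.span {P, b} ^ n = Ideal.span {star z} := by
    rw [← hst, ← Ideal.map_pow, hz, Ideal.map_span, Set.image_singleton]
    rfl
  have hN : Ideal.span {algebraMap K[X] (QuadraticAlgebra K[X] g 0) (QuadraticAlgebra.norm z)} =
      Ideal.span {algebraMap K[X] (QuadraticAlgebra K[X] g 0) (p ^ n)} := by
    rw [QuadraticAlgebra.algebraMap_norm_eq_mul_star, ← Ideal.span_singleton_mul_span_singleton,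
      ← hz, ← hz', ← mul_pow, hIJ, Ideal.span_singleton_pow, map_pow]
  have d1 := QuadraticAlgebra.algebraMap_dvd_iff_dvd.mp
    (Ideal.span_singleton_le_span_singleton.mp hN.le)
  have d2 := QuadraticAlgebra.algebraMap_dvd_iff_dvd.mp
    (Ideal.span_singleton_le_span_singleton.mp hN.ge)
  obtain ⟨u, hu⟩ := associated_of_dvd_dvd d1 d2
  obtain ⟨k, hk, hku⟩ := Polynomial.isUnit_iff.mp u.isUnit
  have hzI : z ∈ Ideal.span {P, a} := by
    apply Ideal.pow_le_self hn.ne'
    rw [hz]
    exact Ideal.mem_span_singleton_self z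
  have htop : Ideal.span {P, a} ⊔ Ideal.span {P, b} = ⊤ := by
    rw [Ideal.eq_top_iff_one, ← hab]
    refine Ideal.mul_mem_left _ _ (Submodule.add_mem_sup (Ideal.subset_span ?_)
      (Ideal.subset_span ?_)) <;> simp
  have htop' : Ideal.span {z} ⊔ Ideal.span {P, b} = ⊤ := by
    rw [← hz]
    exact Ideal.pow_sup_eq_top htop
  have h1 : (1 : QuadraticAlgebra K[X] g 0) ∈ Ideal.span {z} ⊔ Ideal.span {P, b} := by
    rw [htop']; trivial
  obtain ⟨z1, hz1, z2, hz2, h12⟩ := Submodule.mem_sup.mp h1
  obtain ⟨s, rfl⟩ := Ideal.mem_span_singleton'.mp hz1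
  obtain ⟨c1, c2, rfl⟩ := Ideal.mem_span_pair.mp hz2
  obtain ⟨c3, c4, hz3⟩ := Ideal.mem_span_pair.mp hzI
  have e1 := congrArg QuadraticAlgebra.re h12
  have e2 := congrArg QuadraticAlgebra.im h12
  have e3 := congrArg QuadraticAlgebra.re hz3
  have e4 := congrArg QuadraticAlgebra.im hz3
  simp only [P, a, b, QuadraticAlgebra.re_mul, QuadraticAlgebra.im_mul,
    QuadraticAlgebra.algebraMap_re, QuadraticAlgebra.algebraMap_im, QuadraticAlgebra.re_add,
    QuadraticAlgebra.im_add, QuadraticAlgebra.re_one, QuadraticAlgebra.im_one] at e1 e2 e3 e4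
  refine H n hn z.re z.im k hk.ne_zero ?_ ?_
  · refine ⟨2 * (s.re - C y * s.im), (s.re - C y * s.im) * (-(c3.re + C y * c3.im + c4.im * e)) +
      s.im * z.im * e + c1.re - C y * c1.im - c2.im * e, ?_⟩
    linear_combination e1 - C y * e2 - (s.re - C y * s.im) * (e3 + C y * e4) +
      (-(s.im * z.im) + c2.im + (s.re - C y * s.im) * c4.im) * hgy
  · rw [hku, mul_comm _ (p ^ n), hu, QuadraticAlgebra.norm_def]
    ring

end Pool.Agent.MP_bd285a_nt
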