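import Pool.Agent.MP_bd285a_nt.Der

/-!
Nine rational sections of the threefold `(v^2 - b) (w^2 - s) = x^3` over the `s`-line
(`b = 1, -15, 21, -6, -1, -39, -21, 15, -231`), coming from (almost) Belyi maps.
-/

namespace Pool.Agent.MP_bd285a_nt

open Polynomial Differential

variable {K : Type} [Field K] [CharZero K] [Differential K]

lemma const_poly_eq_zero (t : K) (ht : t′ ≠ 0) (S : K[X]) (hS : mapCoeffs S = 0)
    (h : S.eval t = 0) : S = 0 := by
  induction hn : S.natDegree using Nat.strong_induction_on generalizing S with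
  | _ n ih =>
    by_cases h0 : S.natDegree = 0
    · rw [eq_C_of_natDegree_eq_zero h0] at h ⊢
      rw [eval_C] at h
      rw [h, C_0]
    · exfalso
      apply h0
      apply derivative_eq_zero.mp
      refine ih _ (hn ▸ natDegree_derivative_lt h0) _ ?_ ?_ rfl
      · ext i
        have := congrArg (coeff · (i + 1)) hS
        simp only [coeff_mapCoeffs, coeff_zero] at this
        simp [coeff_derivative, this]
      · have := deriv_aeval_eq t S
        simp only [coe_aeval_eq_eval, h, hS, eval_zero, zero_add, Derivation.map_zero] at this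
        exact (mul_eq_zero.mp this.symm).resolve_right ht

omit [CharZero K] in
lemma mapCoeffs_map (φ : ℚ →+* K) (P : ℚ[X]) : mapCoeffs (P.map φ) = 0 := by
  ext i
  simp [deriv_ratCast]

/-- A nonconstant rational function of a nonconstant element is nonconstant. -/
lemma deriv_ne_zero_of (t q : K) (ht : t′ ≠ 0) (P Q : ℚ[X]) (h : q * aeval t Q = aeval t P)
    (a b : ℚ) (hab : P.eval a * Q.eval b ≠ P.eval b * Q.eval a) : q′ ≠ 0 := by
  intro hq
  have h0 := const_poly_eq_zero t ht (C q * Q.map (algebraMap ℚ K) - P.map (algebraMap ℚ K))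
    (by simp [mapCoeffs_map, hq]) (by simp [eval_map_algebraMap, h])
  have h1 : ∀ c : ℚ, q * algebraMap ℚ K (Q.eval c) = algebraMap ℚ K (P.eval c) := by
    intro c
    have := congrArg (eval (algebraMap ℚ K c)) h0
    simpa only [eval_sub, eval_mul, eval_C, eval_map_algebraMap, aeval_algebraMap_apply,
      coe_aeval_eq_eval, eval_zero, sub_eq_zero] using this
  apply hab
  apply (algebraMap ℚ K).injective
  rw [map_mul, map_mul, ← h1, ← h1]
  ring

omit [CharZero K] in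
lemma ne_ratCast (t : K) (ht : t′ ≠ 0) (c : ℚ) : t ≠ c := by
  rintro rfl
  exact ht (deriv_ratCast c)

/-- The surface `(v^2 - b) (w^2 - s) = x^3` has a nondegenerate point for every nonconstant `s`. -/
def Sec (b : K) : Prop :=
  ∀ s : K, s′ ≠ 0 → ∃ v w x : K, (v ^ 2 - b) * (w ^ 2 - s) = x ^ 3 ∧ v′ ≠ 0 ∧ (w ^ 2 / s)′ ≠ 0

lemma sec_one : Sec (1 : K) := by
  intro s hs
  have h1 : s + 540 ≠ 0 := fun h => ne_ratCast s hs (-540) (by push_cast; linear_combination h)
  have h0 : s ≠ 0 := fun h => ne_ratCast s hs 0 (by push_cast; exact h)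
  obtain ⟨x, hx⟩ : ∃ x, x = (216 - 6 * s) / (s + 540) := ⟨_, rfl⟩
  have hx1 : s * (x + 6) = -108 * (5 * x - 2) := by
    rw [hx]; field_simp; ring
  have hx' : x′ ≠ 0 := deriv_ne_zero_of s x hs (216 - 6 * X) (X + 540)
    (by simp only [map_add, map_sub, map_mul, aeval_X, map_ofNat]; rw [hx]; field_simp) 0 1
    (by norm_num)
  refine ⟨2 * x + 11, 2 * (2 * x ^ 2 + 4 * x - 3), 4 * x * (x + 5), ?_, ?_, ?_⟩
  · linear_combination (-4 * (x + 5)) * hx1
  · exact deriv_ne_zero_of x _ hx' (2 * X + 11) 1 (by simp [map_ofNat]) 0 1 (by norm_num)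
  · refine deriv_ne_zero_of x _ hx' ((2 * (2 * X ^ 2 + 4 * X - 3)) ^ 2 * (X + 6))
      (-108 * (5 * X - 2)) ?_ 0 1 (by norm_num)
    simp only [map_add, map_sub, map_mul, map_pow, map_neg, aeval_X, map_ofNat]
    rw [← hx1]
    field_simp

lemma sec_seven : Sec (21 : K) := by
  intro s hs
  have h0 : s ≠ 0 := fun h => ne_ratCast s hs 0 (by push_cast; exact h)
  obtain ⟨v, hv⟩ : ∃ v, v = (s - 9108) / 1728 := ⟨_, rfl⟩
  have hv1 : s = 36 * (48 * v + 253) := by
    rw [hv]; ring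
  have hv' : v′ ≠ 0 := deriv_ne_zero_of s v hs (X - 9108) 1728
    (by simp only [map_sub, aeval_X, map_ofNat]; rw [hv]; field_simp) 0 1 (by norm_num)
  have h1 : v + 6 ≠ 0 := fun h => ne_ratCast v hv' (-6) (by push_cast; linear_combination h)
  refine ⟨v, 3 * (70 * v ^ 3 + 945 * v ^ 2 + 4158 * v + 5913) / (v + 6) ^ 3,
    -3 * (4 * v + 21) * (v ^ 2 - 21) / (v + 6) ^ 2, ?_, hv', ?_⟩
  · rw [hv1]
    field_simp
    ring
  · refine deriv_ne_zero_of v _ hv' ((3 * (70 * X ^ 3 + 945 * X ^ 2 + 4158 * X + 5913)) ^ 2)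
      ((X + 6) ^ 6 * (36 * (48 * X + 253))) ?_ (-6) 0 (by norm_num)
    simp only [map_add, map_mul, map_pow, aeval_X, map_ofNat]
    rw [← hv1]
    field_simp

lemma sec_ten : Sec (-15 : K) := by
  intro s hs
  have h0 : s ≠ 0 := fun h => ne_ratCast s hs 0 (by push_cast; exact h)
  obtain ⟨v, hv⟩ : ∃ v, v = (s + 633600000) / 172800000 := ⟨_, rfl⟩
  have hv1 : s = 57600000 * (3 * v - 11) := by
    rw [hv]; ring
  have hv' : v′ ≠ 0 := deriv_ne_zero_of s v hs (X + 633600000) 172800000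
    (by simp only [map_add, aeval_X, map_ofNat]; rw [hv]; field_simp) 0 1 (by norm_num)
  have h1 : v - 3 ≠ 0 := fun h => ne_ratCast v hv' 3 (by push_cast; linear_combination h)
  refine ⟨v, 3 * (243 * v ^ 5 - 3375 * v ^ 4 + 18950 * v ^ 3 - 33750 * v ^ 2 - 77625 * v + 253125)
      / (v - 3) ^ 3,
    3 * (27 * v ^ 2 - 250 * v + 555) * (v ^ 2 + 15) / (v - 3) ^ 2, ?_, hv', ?_⟩
  · rw [hv1]
    field_simp
    ring
  · refine deriv_ne_zero_of v _ hv' ((3 * (243 * X ^ 5 - 3375 * X ^ 4 + 18950 * X ^ 3 -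
      33750 * X ^ 2 - 77625 * X + 253125)) ^ 2)
      ((X - 3) ^ 6 * (57600000 * (3 * X - 11))) ?_ 3 0 (by norm_num)
    simp only [map_add, map_sub, map_mul, map_pow, aeval_X, map_ofNat]
    rw [← hv1]
    field_simp

lemma aeval_ne_zero_of (t : K) (ht : t′ ≠ 0) (P : ℚ[X]) (hP : P ≠ 0) : aeval t P ≠ 0 := by
  intro h
  have := const_poly_eq_zero t ht (P.map (algebraMap ℚ K)) (mapCoeffs_map _ P)
    (by rwa [eval_map_algebraMap])
  exact hP ((Polynomial.map_eq_zero_iff (algebraMap ℚ K).injective).mp this)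

/-- A section from the rational functions `A^2 / (l X B^6)` and `V / (n M)`. -/
lemma sec_of (b n l k : ℤ) (A B P M Q V : ℚ[X]) (hn : n ≠ 0) (hl : l ≠ 0) (hk : k ≠ 0)
    (h1 : A ^ 2 - (l : ℚ[X]) * X * B ^ 6 = (M * Q) ^ 2 * P ^ 3)
    (h2 : V ^ 2 - (b : ℚ[X]) * (n : ℚ[X]) ^ 2 * M ^ 2 = (k : ℚ[X]) * Q)
    (hA : A.eval 0 ≠ 0) (hB : B.eval 1 ≠ 0) (hV : V.eval 0 * M.eval 1 ≠ V.eval 1 * M.eval 0) :
    Sec (b : K) := by
  intro s hs
  have hn' : (n : K) ≠ 0 := by exact_mod_cast hn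
  have hl' : (l : K) ≠ 0 := by exact_mod_cast hl
  have hk' : (k : K) ≠ 0 := by exact_mod_cast hk
  obtain ⟨t, ht⟩ : ∃ t, t = s / ((k * n) ^ 2 * l) := ⟨_, rfl⟩
  have hs1 : s = (k * n) ^ 2 * (l * t) := by rw [ht]; field_simp
  have ht' : t′ ≠ 0 := by
    intro h0
    apply hs
    rw [hs1]
    simp [h0]
  have ht0 : t ≠ 0 := fun h => ne_ratCast t ht' 0 (by push_cast; exact h)
  have hB' := aeval_ne_zero_of t ht' B (by rintro rfl; simp at hB)
  have hM' := aeval_ne_zero_of t ht' M (by rintro rfl; simp at hV)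
  have e1 := congrArg (aeval t) h1
  have e2 := congrArg (aeval t) h2
  simp only [map_sub, map_mul, map_pow, map_intCast, aeval_X] at e1 e2
  refine ⟨aeval t V / (n * aeval t M), k * n * aeval t A / aeval t B ^ 3,
    k * aeval t Q * aeval t P / aeval t B ^ 2, ?_, ?_, ?_⟩
  · have f1 : (aeval t V / (n * aeval t M)) ^ 2 - b = k * aeval t Q / (n * aeval t M) ^ 2 := by
      rw [← e2]; field_simp
    have f2 : (k * n * aeval t A / aeval t B ^ 3) ^ 2 - s =
        (k * n) ^ 2 * ((aeval t M * aeval t Q) ^ 2 * aeval t P ^ 3) / aeval t B ^ 6 := by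
      rw [← e1, hs1]; field_simp
    rw [f1, f2]
    field_simp
  · refine deriv_ne_zero_of t _ ht' V ((n : ℚ[X]) * M) ?_ 0 1 ?_
    · simp only [map_mul, map_intCast]
      field_simp
    · simp only [eval_mul, eval_intCast]
      intro h
      apply hV
      have hq : (n : ℚ) ≠ 0 := by exact_mod_cast hn
      apply mul_left_cancel₀ hq
      linear_combination h
  · refine deriv_ne_zero_of t _ ht' (A ^ 2) ((l : ℚ[X]) * X * B ^ 6) ?_ 0 1 ?_
    · simp only [map_mul, map_pow, map_intCast, aeval_X]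
      rw [hs1]
      field_simp
    · simp [hA, hB, hl]

lemma sec_neg_six : Sec ((-6 : ℤ) : K) :=
  sec_of (-6) 27 262144 30250
    (759375 * X ^ 9 + 50304375 * X ^ 8 + 1334807100 * X ^ 7 + 17881408908 * X ^ 6 + 125040290562
      * X ^ 5 + 517124265570 * X ^ 4 + 2405599652940 * X ^ 3 + 7823975799420 * X ^ 2 -
      3097996845273 * X - 42618442977)
    (99 * X ^ 2 + 1412 * X + 1089)
    (225 * X ^ 4 + 2196 * X ^ 3 + 9222 * X ^ 2 - 34732 * X + 1089)
    (9 * X + 121)
    (25 * X ^ 2 + 954 * X + 9801)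
    (634 * X + 15246)
    (by norm_num) (by norm_num) (by norm_num) (by push_cast; ring) (by push_cast; ring)
    (by simp) (by norm_num) (by norm_num)

lemma sec_neg_one : Sec ((-1 : ℤ) : K) :=
  sec_of (-1) 2 2985984 36125
    (891598970659375 * X ^ 12 + 3307021636627500 * X ^ 11 + 977894497177950 * X ^ 10 -
      8802393130054084 * X ^ 9 - 5783072110927551 * X ^ 8 + 125575673095212120 * X ^ 7 +
      40297498734486948 * X ^ 6 + 63747117572081112 * X ^ 5 + 8015845336013601 * X ^ 4 -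
      530077403866756 * X ^ 3 + 161468501929950 * X ^ 2 - 1272129398292 * X - 410338673)
    (22627 * X ^ 3 + 15045 * X ^ 2 - 14271 * X - 289)
    (44289025 * X ^ 6 - 1844766 * X ^ 5 + 132409695 * X ^ 4 + 21198844 * X ^ 3 + 7018623 * X ^ 2
      - 398046 * X + 289)
    (121 * X - 289)
    (25 * X ^ 2 + 154 * X + 289)
    (919 * X + 3179)
    (by norm_num) (by norm_num) (by norm_num) (by push_cast; ring) (by push_cast; ring)
    (by simp) (by norm_num) (by norm_num)

lemma sec_neg_thirtynine : Sec ((-39 : ℤ) : K) :=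
  sec_of (-39) 3 1728 400000
    (3709051717943 * X ^ 15 - 172302311624443 * X ^ 14 + 3582645357611705 * X ^ 13 -
      43900908873929965 * X ^ 12 + 351147318317625830 * X ^ 11 - 1913664007404171022 * X ^ 10 +
      7138766767389017202 * X ^ 9 - 17357150259901245690 * X ^ 8 + 21887882823635821395 * X ^ 7
      + 9594718306223206585 * X ^ 6 - 85995769312712874875 * X ^ 5 + 127999060318504984375 * X ^
      4 - 74154218656212500000 * X ^ 3 + 28202565040000000000 * X ^ 2 - 1153146800000000000 * X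
      - 2160000000000000)
    (17303 * X ^ 4 - 224471 * X ^ 3 + 903693 * X ^ 2 - 1003925 * X - 130000)
    (1771561 * X ^ 8 - 35284810 * X ^ 7 + 271312855 * X ^ 6 - 995954540 * X ^ 5 + 1727383175 * X
      ^ 4 - 1962765002 * X ^ 3 + 4022822425 * X ^ 2 - 958540000 * X + 4000000)
    (121 * X - 675)
    (13 * X ^ 2 - 143 * X + 400)
    (247 * X + 275)
    (by norm_num) (by norm_num) (by norm_num) (by push_cast; ring) (by push_cast; ring)
    (by simp) (by norm_num) (by norm_num)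

lemma sec_neg_twentyone : Sec ((-21 : ℤ) : K) :=
  sec_of (-21) 12000 32388554 64009
    (1036579476493 * X ^ 7 + 293081579810173 * X ^ 6 - 2481277097682537 * X ^ 5 -
      4526367901388025 * X ^ 4 - 4526367901388025 * X ^ 3 - 2481277097682537 * X ^ 2 +
      293081579810173 * X + 1036579476493)
    (1771 * X ^ 2 + 9792 * X + 1771)
    (64009 * X ^ 2 - 7778232 * X + 64009)
    (1)
    (64009 * X ^ 4 - 65518 * X ^ 2 + 64009)
    (64009 * X ^ 2 - 32759)
    (by norm_num) (by norm_num) (by norm_num) (by push_cast; ring) (by push_cast; ring)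
    (by simp) (by norm_num) (by norm_num)

lemma sec_fifteen : Sec ((15 : ℤ) : K) :=
  sec_of (15) 96 8318750 121
    (161051 * X ^ 7 + 27481157 * X ^ 6 - 164816399 * X ^ 5 - 437964945 * X ^ 4 + 437964945 * X ^
      3 + 164816399 * X ^ 2 - 27481157 * X - 161051)
    (11 * X ^ 2 + 32 * X + 11)
    (121 * X ^ 2 - 9152 * X + 121)
    (1)
    (121 * X ^ 4 - 782 * X ^ 2 + 121)
    (121 * X ^ 2 - 391)
    (by norm_num) (by norm_num) (by norm_num) (by push_cast; ring) (by push_cast; ring)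
    (by simp) (by norm_num) (by norm_num)

lemma sec_neg_231 : Sec ((-231 : ℤ) : K) :=
  sec_of (-231) 1 17006112 12000
    (2450000 * X ^ 9 + 235620000 * X ^ 8 + 9750490200 * X ^ 7 + 228559880472 * X ^ 6 +
      3377058090021 * X ^ 5 + 56491388096220 * X ^ 4 + 978979980300630 * X ^ 3 +
      6269233392617580 * X ^ 2 - 12179114557770699 * X - 752486818938712)
    (154 * X ^ 2 + 3299 * X + 11011)
    (100 * X ^ 2 - 868 * X + 121)
    (49 * X ^ 2 + 1694 * X + 14641)
    (50 * X ^ 4 + 3731 * X ^ 3 + 124644 * X ^ 2 + 2571527 * X + 38614472)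
    (213 * X ^ 2 + 15078 * X + 643317)
    (by norm_num) (by norm_num) (by norm_num) (by push_cast; ring) (by push_cast; ring)
    (by simp) (by norm_num) (by norm_num)

/-- A common twisting parameter with nondegenerate points on the three twists (`m = 3`). -/
def Good (F : K) (b c : ℚ) : Prop :=
  ∃ D : K, D ≠ 0 ∧ (∃ y : K, y ≠ 0 ∧ D * y ^ 2 = F) ∧
    (∃ x y : K, y′ ≠ 0 ∧ y ^ 2 = D * x ^ 3 + b) ∧
    (∃ x y : K, (y ^ 2 / (c * D))′ ≠ 0 ∧ y ^ 2 = x ^ 3 + c * D)

lemma good_of_sec (F : K) (hF : F′ ≠ 0) (b c : ℚ) (hc : c ≠ 0) (h : Sec (b : K)) :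
    Good F b c := by
  have hF0 : F ≠ 0 := fun h => ne_ratCast F hF 0 (by push_cast; exact h)
  have hc' : (c : K) ≠ 0 := by exact_mod_cast hc
  obtain ⟨v, w, x, h1, h2, h3⟩ := h (c * F ^ 3) (deriv_ne_zero_of F _ hF (C c * X ^ 3) 1
    (by simp) 0 1 (by simpa using hc.symm))
  have hN : v ^ 2 - b ≠ 0 := by
    intro h0
    refine deriv_ne_zero_of v (v ^ 2 - b) h2 (X ^ 2 - C b) 1 (by simp) 0 1
      (by simp [eq_sub_iff_add_eq]) ?_
    rw [h0, Derivation.map_zero]
  obtain ⟨N, hN1⟩ : ∃ N, N = v ^ 2 - b := ⟨_, rfl⟩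
  rw [← hN1] at hN h1
  refine ⟨F ^ 3 * N ^ 4, by positivity, 
    ⟨1 / (F * N ^ 2), one_div_ne_zero (by positivity), by field_simp⟩,
    ⟨1 / (F * N), v, h2, ?_⟩, ⟨x * N, w * N ^ 2, ?_, ?_⟩⟩
  · have : F ^ 3 * N ^ 4 * (1 / (F * N)) ^ 3 = N := by field_simp
    rw [this, hN1]; ring
  · have : (w * N ^ 2) ^ 2 / (c * (F ^ 3 * N ^ 4)) = w ^ 2 / (c * F ^ 3) := by field_simp
    rwa [this]
  · linear_combination N ^ 3 * h1

lemma good_scale (F : K) (b c s : ℚ) (hs : s ≠ 0) (h : Good F b (c * s ^ 2)) :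
    Good F (b * s ^ 2) c := by
  have hs' : (s : K) ≠ 0 := by exact_mod_cast hs
  obtain ⟨D, hD, ⟨y1, hy1, h1⟩, ⟨x2, y2, hy2, h2⟩, ⟨x3, y3, hy3, h3⟩⟩ := h
  refine ⟨s ^ 2 * D, mul_ne_zero (pow_ne_zero _ hs') hD, ⟨y1 / s, div_ne_zero hy1 hs', ?_⟩,
    ⟨x2, s * y2, ?_, ?_⟩, ⟨x3, y3, ?_, ?_⟩⟩
  · rw [← h1]; field_simp
  · simpa [deriv_ratCast, hs] using hy2
  · push_cast
    linear_combination (s : K) ^ 2 * h2
  · push_cast at hy3
    rwa [← mul_assoc]
  · push_cast at h3
    rwa [← mul_assoc]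

lemma good_isog (F : K) (b c : ℚ) (hb : b ≠ 0) (h : Good F b c) : Good F (-27 * b) c := by
  obtain ⟨D, hD, h1, ⟨x, y, hy, h2⟩, h3⟩ := h
  have hN : y ^ 2 - b ≠ 0 := by
    intro h0
    refine deriv_ne_zero_of y (y ^ 2 - b) hy (X ^ 2 - C b) 1 (by simp) 0 1
      (by simp [eq_sub_iff_add_eq]) ?_
    rw [h0, Derivation.map_zero]
  have hx : x ≠ 0 := by
    rintro rfl
    apply hN
    rw [h2]; ring
  refine ⟨D, hD, h1, ⟨(D * x ^ 3 + 4 * b) / (D * x ^ 2), y * (y ^ 2 - 9 * b) / (y ^ 2 - b), ?_, ?_⟩,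
    h3⟩
  · have key : y * (y ^ 2 - 9 * b) / (y ^ 2 - b) * aeval y (X ^ 2 - C b : ℚ[X]) =
        aeval y (X * (X ^ 2 - 9 * C b) : ℚ[X]) := by
      simp only [map_sub, map_mul, map_pow, aeval_X, aeval_C, map_ofNat, eq_ratCast]
      field_simp
    by_cases h9 : 1 - 9 * b = 0
    · refine deriv_ne_zero_of y _ hy _ _ key 0 2 ?_
      have : b = 1 / 9 := by linear_combination -h9 / 9
      rw [this]
      norm_num
    · refine deriv_ne_zero_of y _ hy _ _ key 0 1 ?_
      simpa [hb] using h9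
  · rw [div_pow, mul_pow, h2, add_sub_cancel_right]
    push_cast
    field_simp
    ring

lemma good_all (F : K) (hF : F′ ≠ 0) (d s c : ℚ)
    (hd : d ∈ ({1, -1, 2, 3, -3, 5, -5, -6, 7, -7, 13, 15, -15, 21, -21, -39, 77, -231} : Set ℚ))
    (hs : s ≠ 0) (hc : c ≠ 0) : Good F (d * s ^ 2) c := by
  have g0 : ∀ e : ℚ, Sec (e : K) → Good F (e * s ^ 2) c := fun e h =>
    good_scale F e c s hs (good_of_sec F hF e _ (by positivity) h)
  have g1 : ∀ e t e' : ℚ, Sec (e : K) → e ≠ 0 → t ≠ 0 → e' * t ^ 2 = -27 * e →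
      Good F (e' * s ^ 2) c := by
    intro e t e' h he ht h'
    have := good_scale F (-27 * e) c (s / t) (by positivity)
      (good_isog F e _ he (good_of_sec F hF e _ (by positivity) h))
    convert this using 1
    rw [← h']
    field_simp
  have s1 : Sec ((1 : ℚ) : K) := by push_cast; exact sec_one
  have s2 : Sec ((-15 : ℚ) : K) := by push_cast; exact sec_ten
  have s3 : Sec ((21 : ℚ) : K) := by push_cast; exact sec_seven
  have s4 : Sec ((-6 : ℚ) : K) := by simpa using sec_neg_six (K := K)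
  have s5 : Sec ((-1 : ℚ) : K) := by simpa using sec_neg_one (K := K)
  have s6 : Sec ((-39 : ℚ) : K) := by simpa using sec_neg_thirtynine (K := K)
  have s7 : Sec ((-21 : ℚ) : K) := by simpa using sec_neg_twentyone (K := K)
  have s8 : Sec ((15 : ℚ) : K) := by simpa using sec_fifteen (K := K)
  have s9 : Sec ((-231 : ℚ) : K) := by simpa using sec_neg_231 (K := K)
  simp only [Set.mem_insert_iff, Set.mem_singleton_iff] at hd
  rcases hd with rfl | rfl | rfl | rfl | rfl | rfl | rfl | rfl | rfl | rfl | rfl | rfl | rfl |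
    rfl | rfl | rfl | rfl | rfl
  · exact g0 _ s1
  · exact g0 _ s5
  · exact g1 _ 9 _ s4 (by norm_num) (by norm_num) (by norm_num)
  · exact g1 _ 3 _ s5 (by norm_num) (by norm_num) (by norm_num)
  · exact g1 _ 3 _ s1 (by norm_num) (by norm_num) (by norm_num)
  · exact g1 _ 9 _ s2 (by norm_num) (by norm_num) (by norm_num)
  · exact g1 _ 9 _ s8 (by norm_num) (by norm_num) (by norm_num)
  · exact g0 _ s4
  · exact g1 _ 9 _ s7 (by norm_num) (by norm_num) (by norm_num)
  · exact g1 _ 9 _ s3 (by norm_num) (by norm_num) (by norm_num)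
  · exact g1 _ 9 _ s6 (by norm_num) (by norm_num) (by norm_num)
  · exact g0 _ s8
  · exact g0 _ s2
  · exact g0 _ s3
  · exact g0 _ s7
  · exact g0 _ s6
  · exact g1 _ 9 _ s9 (by norm_num) (by norm_num) (by norm_num)
  · exact g0 _ s9

lemma three_posRank (φ : ℚ →+* K) (u : K) (hu : u′ ≠ 0) (f : ℚ[X]) (hdeg : 3 ≤ f.natDegree)
    (n : ℕ) (hn : 0 < n) (d s c : ℚ) 
    (hd : d ∈ ({1, -1, 2, 3, -3, 5, -5, -6, 7, -7, 13, 15, -15, 21, -21, -39, 77, -231} : Set ℚ)) (hs : s ≠ 0)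
    (hc : c ≠ 0) :
    ∃ D : K, D ≠ 0 ∧ PosRank (C D⁻¹ * f.map φ) ∧
      PosRank (C D * X ^ (3 * n) + C (φ (d * s ^ 2))) ∧ PosRank (X ^ (3 * n) + C (φ c * D)) := by
  obtain ⟨g, hg⟩ : ∃ g, g = f.map φ := ⟨_, rfl⟩
  have hg1 : mapCoeffs g = 0 := by rw [hg]; exact mapCoeffs_map φ f
  have hg2 : 3 ≤ g.natDegree := by rw [hg, natDegree_map]; exact hdeg
  have hF : (g.eval u)′ ≠ 0 := by
    intro h0
    have := const_poly_eq_zero u hu (g - C (g.eval u)) (by simp [hg1, h0]) (by simp)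
    rw [sub_eq_zero.mp this, natDegree_C] at hg2
    omega
  obtain ⟨D, hD, ⟨y1, hy1, h1⟩, ⟨x2, y2, hy2, h2⟩, ⟨x3, y3, hy3, h3⟩⟩ :=
    good_all (g.eval u) hF d s c hd hs hc
  have hc' : (c : K) ≠ 0 := by exact_mod_cast hc
  rw [← hg, eq_ratCast, eq_ratCast]
  exact ⟨D, hD, posRank_one g hg1 hg2 D u y1 hD hu hy1 h1,
    posRank_two n hn D _ x2 y2 hD (deriv_ratCast _) hy2 h2,
    posRank_three n hn _ x3 y3 (mul_ne_zero hc' hD) hy3 h3⟩

/-- The derivation `d/du` on the field of rational functions. -/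
lemma exists_deriv (K : Type) [Field K] [CharZero K] [Algebra ℚ[X] K] [IsFractionRing ℚ[X] K] :
    ∃ d : Differential K, d.deriv (algebraMap ℚ[X] K X) = 1 := by
  let φ : ℚ[X] →+* DualNumber K :=
    (aeval (TrivSqZeroExt.inl (algebraMap ℚ[X] K X) + DualNumber.eps : DualNumber K)).toRingHom
  have h1 : (TrivSqZeroExt.fstHom K K K).toRingHom.comp φ = algebraMap ℚ[X] K := by
    refine Polynomial.ringHom_ext' (RingHom.ext_rat _ _) ?_
    change (φ X).fst = _
    simp [φ]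
  have hu : ∀ y : nonZeroDivisors ℚ[X], IsUnit (φ y) := by
    intro y
    rw [TrivSqZeroExt.isUnit_iff_isUnit_fst]
    have : (φ y).fst = algebraMap ℚ[X] K y := by rw [← h1]; rfl
    rw [this]
    exact IsLocalization.map_units K y
  let ψ : K →+* DualNumber K := IsLocalization.lift hu
  have h2 : (TrivSqZeroExt.fstHom K K K).toRingHom.comp ψ = RingHom.id _ := by
    apply IsLocalization.ringHom_ext (nonZeroDivisors ℚ[X])
    rw [RingHom.comp_assoc, IsLocalization.lift_comp, h1, RingHom.id_comp]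
  have h3 : ∀ a, (ψ a).fst = a := fun a => congrArg (fun g : K →+* K => g a) h2
  let L : K →+ K := { toFun := fun a => (ψ a).snd, map_zero' := by simp, map_add' := by simp }
  refine ⟨⟨Derivation.mk' L.toIntLinearMap ?_⟩, ?_⟩
  · intro a b
    simp [L, h3, mul_comm]
  · change (ψ (algebraMap ℚ[X] K X)).snd = 1
    rw [IsLocalization.lift_eq]
    simp [φ]

end Pool.Agent.MP_bd285a_nt
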