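import Pool.Agent.MP_bd285a_nt.Gen

/-!
Simultaneous twists when `y^2 = f(x)` is an elliptic curve with a rational point of order two,
and for the family `f = l₁ l₂ (A^m + l₁)`.
-/

namespace Pool.Agent.MP_bd285a_nt

open Polynomial Differential

variable {K : Type} [Field K] [CharZero K] [Differential K]

/-- The data of a moving point on the threefold. -/
def Beta (F : K) (m : ℕ) (b c : ℚ) : Prop :=
  ∃ β x v g : K, β′ ≠ 0 ∧ v′ ≠ 0 ∧ v ^ 2 = β * x ^ m + b ∧ g ^ 2 = F * β * (1 + c * β)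

/-- The quadratic twist, through a quotient curve. -/
lemma posRank_one_comp (g h : K[X]) (hh : mapCoeffs h = 0)
    (hf : mapCoeffs (g.comp h) = 0) (hdeg : 3 ≤ g.natDegree) (h0 : 0 < h.natDegree) (D u y : K)
    (hD : D ≠ 0) (hu : u′ ≠ 0) (hy : y ≠ 0) (e : D * y ^ 2 = g.eval u) :
    PosRank (C D⁻¹ * g.comp h) := by
  refine posRank_of_impl 0 ((D⁻¹)′ * D) y _ (h - C u) ?_ ?_ ?_ hy ?_
  · have : implicitDeriv (C (0 : K) * X) (g.comp h) = 0 := by simp [implicitDeriv, hf]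
    rw [Derivation.leibniz, this, implicitDeriv_C, ← mul_assoc, ← C_mul, mul_assoc,
      mul_inv_cancel₀ hD]
    simp [mul_comm]
  · have : implicitDeriv (C (0 : K) * X) h = 0 := by simp [implicitDeriv, hh]
    rw [Derivation.map_sub, this, implicitDeriv_C, zero_sub, dvd_neg]
    intro hdvd
    have h2 := natDegree_le_of_dvd hdvd (C_ne_zero.mpr hu)
    rw [natDegree_C, natDegree_sub_C] at h2
    omega
  · rw [natDegree_C_mul (inv_ne_zero hD), natDegree_sub_C, natDegree_comp]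
    nlinarith
  · have h1 := sub_dvd_eval_sub h (C u) (g.map C)
    rw [eval_map, eval_map, ← comp, ← comp, comp_C, ← e] at h1
    have h2 : C D⁻¹ * g.comp h - C (y ^ 2) = C D⁻¹ * (g.comp h - C (D * y ^ 2)) := by
      rw [mul_sub, ← C_mul, inv_mul_cancel_left₀ hD]
    rw [h2]
    exact h1.mul_left _

lemma posRank_beta (φ : ℚ →+* K) (f h : ℚ[X]) (hdeg : 3 ≤ f.natDegree) (h0 : 0 < h.natDegree)
    (n : ℕ) (hn : 0 < n) (b c : ℚ) (hc : c ≠ 0) (u : K) (hu : u′ ≠ 0)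
    (hB : Beta (aeval u f) (2 * n + 1) b c) :
    ∃ D : K, D ≠ 0 ∧ PosRank (C D⁻¹ * (f.comp h).map φ) ∧
      PosRank (C D * X ^ (2 * n + 1) + C (φ b)) ∧ PosRank (X ^ (2 * n + 1) + C (φ c * D)) := by
  obtain ⟨β, x, v, g, hβ, hv, h2, hg⟩ := hB
  obtain rfl : φ = algebraMap ℚ K := Subsingleton.elim _ _
  have hf0 : f ≠ 0 := by
    rintro rfl
    simp at hdeg
  have hF : aeval u f ≠ 0 := aeval_ne_zero_of u hu f hf0
  have hβ0 : β ≠ 0 := fun h => ne_ratCast β hβ 0 (by push_cast; exact h)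
  have hc' : (c : K) ≠ 0 := by exact_mod_cast hc
  have he : (f.map (algebraMap ℚ K)).eval u = aeval u f := eval_map_algebraMap _ _
  generalize aeval u f = F at hF hg he
  have hD : F ^ (2 * n + 1) * β ^ (2 * n + 2) ≠ 0 := by positivity
  rw [eq_ratCast, eq_ratCast]
  refine ⟨F ^ (2 * n + 1) * β ^ (2 * n + 2), hD, ?_, ?_, ?_⟩
  · rw [map_comp]
    refine posRank_one_comp _ _ (mapCoeffs_map _ h)
      (by rw [← map_comp]; exact mapCoeffs_map _ _) (by rw [natDegree_map]; exact hdeg)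
      (by rw [natDegree_map]; exact h0) _ u
      (1 / (F ^ n * β ^ (n + 1))) hD hu (one_div_ne_zero (by positivity)) ?_
    rw [he]
    field_simp
    ring
  · have := posRank_two' (2 * n + 1) 1 (by omega) one_pos _ (b : K) (x / (F * β)) v hD
      (deriv_ratCast _) hv (by
        rw [h2, div_pow, mul_pow]
        field_simp
        ring)
    rwa [mul_one] at this
  · have := posRank_three' (2 * n + 1) 1 (by omega) one_pos
      ((c : K) * (F ^ (2 * n + 1) * β ^ (2 * n + 2))) (F * β) ((F * β) ^ n * g)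
      (mul_ne_zero hc' hD) ?_ (by
        rw [mul_pow, hg]
        ring)
    · rwa [mul_one] at this
    · have e : ((F * β) ^ n * g) ^ 2 / ((c : K) * (F ^ (2 * n + 1) * β ^ (2 * n + 2))) =
          1 + ((c : K) * β)⁻¹ := by
        rw [mul_pow, hg]
        field_simp
        ring
      have hcβ : ((c : K) * β)′ ≠ 0 := by
        rw [Derivation.leibniz, deriv_ratCast]
        simpa [hc'] using hβ
      rw [e, Derivation.map_add, Derivation.map_one_eq_zero, zero_add, Derivation.leibniz_inv]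
      exact smul_ne_zero (neg_ne_zero.2 (by positivity)) hcβ

/-- A split conic `w^2 = S^2 z^2 + k` has a moving point. -/
lemma split_conic (t : K) (ht : t′ ≠ 0) (S k : ℚ) (hS : S ≠ 0) :
    ∃ z w : K, z′ ≠ 0 ∧ w′ ≠ 0 ∧ w ^ 2 = (S : K) ^ 2 * z ^ 2 + k := by
  have ht0 : t ≠ 0 := fun h => ne_ratCast t ht 0 (by push_cast; exact h)
  have hS' : (S : K) ≠ 0 := by exact_mod_cast hS
  obtain ⟨z, hz⟩ : ∃ z : K, z = (k - t ^ 2) / (2 * S * t) := ⟨_, rfl⟩
  have e1 : t * t + (S : K) * (z * t) + (S : K) * (z * t) = k := by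
    rw [hz]
    field_simp
    ring
  have hz' : z′ ≠ 0 := by
    intro h0
    have e2 := congrArg Differential.deriv e1
    simp only [Derivation.map_add, Derivation.leibniz, deriv_ratCast, h0, smul_eq_mul] at e2
    have e3 : t = -((S : K) * z) := by
      apply mul_right_cancel₀ ht
      linear_combination e2 / 2
    apply ht
    rw [e3, Derivation.map_neg, Derivation.leibniz, deriv_ratCast, h0]
    simp
  have hz0 : z ≠ 0 := fun h => ne_ratCast z hz' 0 (by push_cast; exact h)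
  have e4 : (t + S * z) ^ 2 = (S : K) ^ 2 * z ^ 2 + k := by linear_combination e1
  refine ⟨z, t + S * z, hz', ?_, e4⟩
  generalize t + S * z = w at e4
  intro h0
  have e5 : w * w = (S : K) * ((S : K) * (z * z)) + k := by linear_combination e4
  have e6 := congrArg Differential.deriv e5
  simp only [Derivation.map_add, Derivation.leibniz, deriv_ratCast, h0, smul_eq_mul] at e6
  exact mul_ne_zero (mul_ne_zero (mul_ne_zero hS' hS') hz0) hz' (by linear_combination -e6 / 2)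

/-- Elliptic curves with a rational point of order two. -/
lemma beta_two (t : K) (ht : t′ ≠ 0) (a A B b c : ℚ) (ha : a ≠ 0) (hδ : A ^ 2 - 4 * B ≠ 0)
    (hb : b ≠ 0) (hc : c ≠ 0) (n : ℕ) :
    ∃ U : K, U′ ≠ 0 ∧ Beta ((a : K) * U * (U ^ 2 + A * U + B)) (2 * n + 1) b c := by
  obtain ⟨δ, hδ1⟩ : ∃ δ, δ = A ^ 2 - 4 * B := ⟨_, rfl⟩
  rw [← hδ1] at hδ
  obtain ⟨l, hl⟩ : ∃ l, l = δ * a ^ 2 * b ^ 3 * c ^ 3 := ⟨_, rfl⟩
  have hl0 : l ≠ 0 := by rw [hl]; positivity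
  obtain ⟨s, hs⟩ : ∃ s, s = l ^ (n ^ 2 + n) := ⟨_, rfl⟩
  have hs0 : s ≠ 0 := by rw [hs]; positivity
  obtain ⟨κ, hκ⟩ : ∃ κ, κ = a * b * c * s ^ 2 := ⟨_, rfl⟩
  have hκ0 : κ ≠ 0 := by rw [hκ]; positivity
  have hx : (l ^ (2 * n + 1)) ^ (2 * n + 1) = b * c * δ * κ ^ 2 := by
    have : (l ^ (2 * n + 1)) ^ (2 * n + 1) = l * s ^ 4 := by rw [hs]; ring
    rw [this, hκ, hl]
    ring
  generalize l ^ (2 * n + 1) = x at hx
  obtain ⟨k, hk⟩ : ∃ k, k = (1 + 2 * A * κ + δ * κ ^ 2) / 4 := ⟨_, rfl⟩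
  obtain ⟨z, w, hz, hw, hzw⟩ := split_conic t ht (a * b * c * s) (b * k) (by positivity)
  have hw0 : w ≠ 0 := fun h => ne_ratCast w hw 0 (by push_cast; exact h)
  have ha' : (a : K) ≠ 0 := by exact_mod_cast ha
  have hb' : (b : K) ≠ 0 := by exact_mod_cast hb
  have hc' : (c : K) ≠ 0 := by exact_mod_cast hc
  have hδ' : (δ : K) ≠ 0 := by exact_mod_cast hδ
  have hκ' : (κ : K) ≠ 0 := by exact_mod_cast hκ0
  have hx' : (x : K) ^ (2 * n + 1) = b * c * δ * κ ^ 2 := by exact_mod_cast hx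
  have hκ1 : (κ : K) = a * b * c * s ^ 2 := by exact_mod_cast hκ
  have hk1 : 4 * (k : K) = 1 + 2 * A * κ + δ * κ ^ 2 := by
    rw [hk]; push_cast; ring
  have hδ2 : (δ : K) = A ^ 2 - 4 * B := by exact_mod_cast hδ1
  obtain ⟨U, hU1⟩ : ∃ U : K, U = a * c * z ^ 2 := ⟨_, rfl⟩
  have hU : U′ ≠ 0 := deriv_ne_zero_of z U hz (C (a * c) * X ^ 2) 1 (by simp [hU1]) 0 1
    (by simp [ha, hc])
  obtain ⟨L, hL1⟩ : ∃ L : K, L = κ * U + k := ⟨_, rfl⟩
  have hL : w ^ 2 = b * L := by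
    rw [hzw, hL1, hU1, hκ1]
    push_cast
    ring
  have hL0 : L ≠ 0 := by
    rintro rfl
    exact pow_ne_zero 2 hw0 (by rw [hL, mul_zero])
  obtain ⟨q, hq1⟩ : ∃ q : K, q = U ^ 2 + A * U + B := ⟨_, rfl⟩
  have e1 : (κ * U + (1 + A * κ) / 2) ^ 2 = L + κ ^ 2 * q := by
    rw [hL1, hq1]
    linear_combination (-1 / 4 : K) * hk1 - (κ : K) ^ 2 / 4 * hδ2
  have e2 : (U + (A + κ * δ) / 2) ^ 2 = q + δ * L := by
    rw [hL1, hq1]
    linear_combination (-(δ : K) / 4) * hk1 - (1 / 4 : K) * hδ2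
  obtain ⟨β, hβ1⟩ : ∃ β : K, β = q / (c * δ * L) := ⟨_, rfl⟩
  have hβ : β′ ≠ 0 := by
    intro h0
    have e3 : β * ((c : K) * ((δ : K) * ((κ : K) * U + k))) = U * U + A * U + B := by
      rw [← hL1, hβ1, hq1]
      field_simp
    have e4 := congrArg Differential.deriv e3
    simp only [Derivation.map_add, Derivation.leibniz, deriv_ratCast, h0, smul_eq_mul] at e4
    have e5 : U + U + A = β * ((c : K) * ((δ : K) * κ)) := by
      apply mul_right_cancel₀ hU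
      linear_combination -e4
    have e6 := congrArg Differential.deriv e5
    simp only [Derivation.map_add, Derivation.leibniz, deriv_ratCast, h0, smul_eq_mul] at e6
    exact hU (by linear_combination e6 / 2)
  have e7 : (b * (κ * U + (1 + A * κ) / 2) / w) ^ 2 = β * (x : K) ^ (2 * n + 1) + b := by
    rw [div_pow, mul_pow, e1, hL, hx', hβ1]
    field_simp
    ring
  refine ⟨U, hU, β, x, b * (κ * U + (1 + A * κ) / 2) / w,
    a * z * q * (U + (A + κ * δ) / 2) / (δ * L), hβ, ?_, e7, ?_⟩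
  · generalize b * (κ * U + (1 + A * κ) / 2) / w = v at e7
    intro h0
    have e8 : v * v = β * ((b : K) * ((c : K) * ((δ : K) * ((κ : K) * κ)))) + b := by
      rw [hx'] at e7
      linear_combination e7
    have e9 := congrArg Differential.deriv e8
    simp only [Derivation.map_add, Derivation.leibniz, deriv_ratCast, h0, smul_eq_mul] at e9
    exact mul_ne_zero (mul_ne_zero hb' (mul_ne_zero hc' (mul_ne_zero hδ'
      (mul_ne_zero hκ' hκ')))) hβ (by linear_combination -e9)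
  · rw [div_pow, mul_pow, e2, ← hq1, hβ1, hU1]
    field_simp
    ring

omit [CharZero K] in
lemma Beta.scale {F : K} {m : ℕ} {b c : ℚ} (h : Beta F m b c) (F' r : K) (e : F' = F * r ^ 2) :
    Beta F' m b c := by
  obtain ⟨β, x, v, g, h1, h2, h3, h4⟩ := h
  exact ⟨β, x, v, g * r, h1, h2, h3, by rw [mul_pow, h4, e]; ring⟩

lemma quad_form (q : ℚ[X]) (hq : q.natDegree = 2) (hs : Squarefree q) :
    ∃ a a₁ a₀ : ℚ, a ≠ 0 ∧ a₁ ^ 2 - 4 * a * a₀ ≠ 0 ∧ q = C a * X ^ 2 + C a₁ * X + C a₀ := by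
  have e : q = C (q.coeff 2) * X ^ 2 + C (q.coeff 1) * X + C (q.coeff 0) := by
    conv_lhs => rw [q.as_sum_range_C_mul_X_pow, hq]
    simp [Finset.sum_range_succ]
    ring
  have ha : q.coeff 2 ≠ 0 := by
    rw [← hq]
    exact leadingCoeff_ne_zero.2 hs.ne_zero
  refine ⟨_, _, _, ha, ?_, e⟩
  generalize q.coeff 2 = a at e ha
  generalize q.coeff 1 = a₁ at e
  generalize q.coeff 0 = a₀ at e
  intro h0
  have e1 : a₁ = a * (2 * (a₁ / (2 * a))) := by field_simp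
  have e0 : a₀ = a * (a₁ / (2 * a)) ^ 2 := by
    field_simp
    linear_combination -h0
  generalize a₁ / (2 * a) = k at e1 e0
  have := hs (X + C k) ⟨C a, by
    rw [e, e1, e0]
    simp only [C_mul, C_pow, map_ofNat]
    ring⟩
  have h2 := natDegree_eq_zero_of_isUnit this
  rw [natDegree_X_add_C] at h2
  omega

lemma beta_cubic (t : K) (ht : t′ ≠ 0) (f : ℚ[X]) (hf : Squarefree f) (h3 : f.natDegree = 3)
    (e : ℚ) (he : f.IsRoot e) (b c : ℚ) (hb : b ≠ 0) (hc : c ≠ 0) (n : ℕ) :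
    ∃ u : K, u′ ≠ 0 ∧ Beta (aeval u f) (2 * n + 1) b c := by
  obtain ⟨q, rfl⟩ := dvd_iff_isRoot.2 he
  have hq := hf.of_mul_right
  rw [natDegree_mul (X_sub_C_ne_zero e) hq.ne_zero, natDegree_X_sub_C] at h3
  obtain ⟨a, a₁, a₀, ha, hd, rfl⟩ := quad_form q (by omega) hq
  obtain ⟨U, hU, h⟩ := beta_two t ht a ((2 * a * e + a₁) / a) ((a * e ^ 2 + a₁ * e + a₀) / a) b c
    ha (by
      intro h0
      apply hd
      field_simp at h0
      linear_combination h0) hb hc n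
  have ha' : (a : K) ≠ 0 := by exact_mod_cast ha
  refine ⟨U + e, by simpa [deriv_ratCast] using hU, h.scale _ 1 ?_⟩
  simp only [map_mul, map_add, map_sub, map_pow, aeval_X, aeval_C, eq_ratCast]
  push_cast
  field_simp
  ring

lemma beta_quartic (t : K) (ht : t′ ≠ 0) (f : ℚ[X]) (hf : Squarefree f) (h4 : f.natDegree = 4)
    (e₁ e₂ : ℚ) (hne : e₁ ≠ e₂) (h1 : f.IsRoot e₁) (h2 : f.IsRoot e₂) (b c : ℚ) (hb : b ≠ 0)
    (hc : c ≠ 0) (n : ℕ) : ∃ u : K, u′ ≠ 0 ∧ Beta (aeval u f) (2 * n + 1) b c := by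
  obtain ⟨g, rfl⟩ := dvd_iff_isRoot.2 h1
  have hd : e₂ - e₁ ≠ 0 := sub_ne_zero.2 hne.symm
  have hg2 : g.IsRoot e₂ := by
    simpa [IsRoot.def, hd] using h2
  obtain ⟨q, rfl⟩ := dvd_iff_isRoot.2 hg2
  have hq := hf.of_mul_right.of_mul_right
  rw [natDegree_mul (X_sub_C_ne_zero e₁) hf.of_mul_right.ne_zero,
    natDegree_mul (X_sub_C_ne_zero e₂) hq.ne_zero, natDegree_X_sub_C, natDegree_X_sub_C] at h4
  have hq1 : q.eval e₁ ≠ 0 := by
    intro h0
    obtain ⟨r, rfl⟩ := dvd_iff_isRoot.2 h0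
    have := hf (X - C e₁) ⟨(X - C e₂) * r, by ring⟩
    have h2 := natDegree_eq_zero_of_isUnit this
    rw [natDegree_X_sub_C] at h2
    omega
  obtain ⟨a, a₁, a₀, ha, hδ, rfl⟩ := quad_form q (by omega) hq
  simp only [eval_add, eval_mul, eval_pow, eval_C, eval_X] at hq1
  obtain ⟨p, hp⟩ : ∃ p, p = a * e₁ ^ 2 + a₁ * e₁ + a₀ := ⟨_, rfl⟩
  obtain ⟨d, hd1⟩ : ∃ d, d = e₂ - e₁ := ⟨_, rfl⟩
  rw [← hp] at hq1
  rw [← hd1] at hd
  obtain rfl : e₂ = d + e₁ := by rw [hd1]; ring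
  obtain rfl : a₀ = p - a * e₁ ^ 2 - a₁ * e₁ := by rw [hp]; ring
  obtain ⟨U, hU, h⟩ := beta_two t ht (-d * p) (2 / d + (2 * a * e₁ + a₁) / p)
    (1 / d ^ 2 + (2 * a * e₁ + a₁) / (p * d) + a / p) b c
    (mul_ne_zero (neg_ne_zero.2 hd) hq1) (by
      intro h0
      apply hδ
      field_simp at h0
      apply mul_left_cancel₀ (pow_ne_zero 2 hd)
      linear_combination h0) hb hc n
  have hd' : (d : K) ≠ 0 := by exact_mod_cast hd
  have hp' : (p : K) ≠ 0 := by exact_mod_cast hq1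
  obtain ⟨w, hw1⟩ : ∃ w : K, w = U + ((1 / d : ℚ) : K) := ⟨_, rfl⟩
  have hw : w′ ≠ 0 := by
    rw [hw1, Derivation.map_add, deriv_ratCast, add_zero]
    exact hU
  have hw0 : w ≠ 0 := fun h => ne_ratCast w hw 0 (by push_cast; exact h)
  refine ⟨w⁻¹ + e₁, ?_, h.scale _ (w⁻¹ ^ 2) ?_⟩
  · rw [Derivation.map_add, deriv_ratCast, add_zero, Derivation.leibniz_inv]
    exact smul_ne_zero (neg_ne_zero.2 (by positivity)) hw
  · obtain rfl : U = w - ((1 / d : ℚ) : K) := by rw [hw1]; ring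
    simp only [map_mul, map_add, map_sub, map_pow, aeval_X, aeval_C, eq_ratCast]
    push_cast
    field_simp
    ring

lemma lin_form (l : ℚ[X]) (hl : l.natDegree = 1) :
    ∃ a a₀ : ℚ, a ≠ 0 ∧ l = C a * X + C a₀ := by
  refine ⟨l.coeff 1, l.coeff 0, ?_, eq_X_add_C_of_natDegree_le_one hl.le⟩
  rw [← hl]
  refine leadingCoeff_ne_zero.2 ?_
  rintro rfl
  simp at hl

lemma beta_family (t : K) (ht : t′ ≠ 0) (l₁ l₂ A : ℚ[X]) (h1 : l₁.natDegree = 1)
    (h2 : l₂.natDegree = 1) (hA : A ≠ 0) (b c : ℚ) (hc : c ≠ 0) (n : ℕ) (hn : 0 < n) :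
    ∃ u : K, u′ ≠ 0 ∧
      Beta (aeval u (l₁ * l₂ * (A ^ (2 * n + 1) + l₁))) (2 * n + 1) b c := by
  obtain ⟨a, a₀, ha, e1⟩ := lin_form l₁ h1
  obtain ⟨d, d₀, hd, e2⟩ := lin_form l₂ h2
  obtain ⟨ρ, hρ⟩ : ∃ ρ, ρ = a / d := ⟨_, rfl⟩
  have hρ0 : ρ ≠ 0 := by rw [hρ]; positivity
  obtain ⟨z, w, hz, hw, hzw⟩ := split_conic t ht (ρ ^ (n + 1))
    (b + (a₀ - ρ * d₀) * ρ ^ (2 * n + 1) / c) (by positivity)
  have hc' : (c : K) ≠ 0 := by exact_mod_cast hc
  have hd' : (d : K) ≠ 0 := by exact_mod_cast hd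
  have hρ' : (a : K) = ρ * d := by
    rw [hρ]; push_cast; field_simp
  obtain ⟨u, hu1⟩ : ∃ u : K, u = (c * z ^ 2 - d₀) / d := ⟨_, rfl⟩
  have hu : u′ ≠ 0 := deriv_ne_zero_of z u hz (C c * X ^ 2 - C d₀) (C d)
    (by rw [hu1]; simp; field_simp) 0 1 (by
      simp only [eval_sub, eval_mul, eval_pow, eval_C, eval_X]
      intro h0
      exact mul_ne_zero hc hd (by linear_combination -h0))
  have f2 : aeval u l₂ = c * z ^ 2 := by
    rw [e2, hu1]
    simp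
    field_simp
    ring
  have f1 : aeval u l₁ = ρ * c * z ^ 2 + (a₀ - ρ * d₀) := by
    rw [e1, hu1]
    simp [hρ']
    field_simp
    ring
  have hA' : aeval u A ≠ 0 := aeval_ne_zero_of u hu A hA
  have hl0 : l₁ ≠ 0 := by
    rintro rfl
    simp at h1
  refine ⟨u, hu, aeval u l₁ / (c * aeval u A ^ (2 * n + 1)), ρ * aeval u A, w,
    z * aeval u l₁ * (aeval u A ^ (2 * n + 1) + aeval u l₁) / aeval u A ^ (2 * n + 1), ?_, hw,
    ?_, ?_⟩
  · intro h0
    obtain ⟨β, hβ⟩ : ∃ β, β = aeval u l₁ / (c * aeval u A ^ (2 * n + 1)) := ⟨_, rfl⟩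
    rw [← hβ] at h0
    have h3 := const_poly_eq_zero u hu
      (C β * (C c * A ^ (2 * n + 1)).map (algebraMap ℚ K) - l₁.map (algebraMap ℚ K))
      (by simp only [map_sub, Derivation.leibniz, mapCoeffs_map, mapCoeffs_C, h0]; simp)
      (by
        simp only [eval_sub, eval_mul, eval_C, eval_map_algebraMap, map_mul, map_pow, aeval_C,
          eq_ratCast]
        rw [hβ]
        field_simp
        ring)
    have hβ0 : β ≠ 0 := by
      rw [hβ]
      exact div_ne_zero (aeval_ne_zero_of u hu l₁ hl0) (by positivity)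
    have h4 := congrArg natDegree (sub_eq_zero.mp h3)
    rw [natDegree_C_mul hβ0, natDegree_map, natDegree_map, natDegree_C_mul hc, natDegree_pow,
      h1] at h4
    have := Nat.eq_one_of_mul_eq_one_right h4
    omega
  · rw [hzw, mul_pow, f1]
    push_cast
    field_simp
    ring
  · simp only [map_mul, map_add, map_pow]
    rw [f2]
    field_simp

lemma squarefree_of_comp (f h : ℚ[X]) (h0 : 0 < h.natDegree) (hf : Squarefree (f.comp h)) :
    Squarefree f := by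
  rintro r ⟨w, rfl⟩
  have h1 := hf (r.comp h) ⟨w.comp h, by simp only [mul_comp]⟩
  have h2 := natDegree_eq_zero_of_isUnit h1
  rw [natDegree_comp] at h2
  have h3 : r.natDegree = 0 := by
    rcases Nat.mul_eq_zero.1 h2 with h3 | h3
    · exact h3
    · omega
  rw [eq_C_of_natDegree_eq_zero h3] at h1 ⊢
  rwa [C_comp] at h1

lemma two_posRank (φ : ℚ →+* K) (t : K) (ht : t′ ≠ 0) (f h : ℚ[X]) (hf : Squarefree f)
    (hdeg : 3 ≤ f.natDegree) (h0 : 0 < h.natDegree) (m : ℕ) (hm : Odd m) (h3 : 3 ≤ m) (b c : ℚ)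
    (hb : b ≠ 0) (hc : c ≠ 0)
    (hr : (f.natDegree = 3 ∧ ∃ e : ℚ, f.IsRoot e) ∨
      (f.natDegree = 4 ∧ ∃ e₁ e₂ : ℚ, e₁ ≠ e₂ ∧ f.IsRoot e₁ ∧ f.IsRoot e₂) ∨
      ∃ l₁ l₂ A : ℚ[X], l₁.natDegree = 1 ∧ l₂.natDegree = 1 ∧ f = l₁ * l₂ * (A ^ m + l₁)) :
    ∃ D : K, D ≠ 0 ∧ PosRank (C D⁻¹ * (f.comp h).map φ) ∧
      PosRank (C D * X ^ m + C (φ b)) ∧ PosRank (X ^ m + C (φ c * D)) := by
  obtain ⟨n, rfl⟩ := hm
  have hn : 0 < n := by omega
  have key : ∃ u : K, u′ ≠ 0 ∧ Beta (aeval u f) (2 * n + 1) b c := by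
    rcases hr with ⟨h1, e, he⟩ | ⟨h1, e₁, e₂, hne, he₁, he₂⟩ | ⟨l₁, l₂, A, h1, h2, rfl⟩
    · exact beta_cubic t ht f hf h1 e he b c hb hc n
    · exact beta_quartic t ht f hf h1 e₁ e₂ hne he₁ he₂ b c hb hc n
    · refine beta_family t ht l₁ l₂ A h1 h2 ?_ b c hc n hn
      rintro rfl
      have := hf l₁ ⟨l₂, by simp; ring⟩
      have h4 := natDegree_eq_zero_of_isUnit this
      omega
  obtain ⟨u, hu, hβ⟩ := key
  exact posRank_beta φ f h hdeg h0 n hn b c hc u hu hβ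

lemma roots_cases (f : ℚ[X]) (hf : Squarefree f) (hdeg : 3 ≤ f.natDegree) (h4 : f.natDegree ≤ 4)
    (hr : f.natDegree ≤ f.roots.card + 2) :
    (f.natDegree = 3 ∧ ∃ e : ℚ, f.IsRoot e) ∨
      (f.natDegree = 4 ∧ ∃ e₁ e₂ : ℚ, e₁ ≠ e₂ ∧ f.IsRoot e₁ ∧ f.IsRoot e₂) := by
  have hnd : f.roots.Nodup := nodup_roots (PerfectField.separable_iff_squarefree.2 hf)
  have hc : f.roots.toFinset.card = f.roots.card := Multiset.toFinset_card_of_nodup hnd
  have hm : ∀ e ∈ f.roots.toFinset, f.IsRoot e := fun e he =>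
    isRoot_of_mem_roots (Multiset.mem_toFinset.1 he)
  rcases (by omega : f.natDegree = 3 ∨ f.natDegree = 4) with h | h
  · obtain ⟨e, he⟩ := Finset.card_pos.1 (by omega : 0 < f.roots.toFinset.card)
    exact Or.inl ⟨h, e, hm e he⟩
  · obtain ⟨e₁, he₁, e₂, he₂, hne⟩ :=
      Finset.one_lt_card.1 (by omega : 1 < f.roots.toFinset.card)
    exact Or.inr ⟨h, e₁, e₂, hne, hm e₁ he₁, hm e₂ he₂⟩

end Pool.Agent.MP_bd285a_nt
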